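import Pool.Agent.TwoExp.Compact

/-!
# Two exponentials suffice
-/

namespace TwoExp

open NormedSpace Filter Topology
open scoped RealInnerProductSpace

attribute [local instance] instRatAlg

section Sqrt

variable {V : Type*} [NormedAddCommGroup V] [InnerProductSpace ℝ V] [FiniteDimensional ℝ V]

/-- Uniqueness of positive square roots. -/
theorem sqrt_unique {E F : V →L[ℝ] V} (hE : adj E = E) (hF : adj F = F)
    (hE0 : ∀ x, 0 ≤ ⟪E x, x⟫) (hF0 : ∀ x, 0 ≤ ⟪F x, x⟫) (h : E * E = F * F) : E = F := by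
  set Δ : V →L[ℝ] V := E - F with hΔ
  have hsymm : (Δ : V →ₗ[ℝ] V).IsSymmetric := by
    intro x y
    have hadj : adj Δ = Δ := by rw [hΔ, adj_sub, hE, hF]
    have := ContinuousLinearMap.adjoint_inner_left Δ y x
    simp only [ContinuousLinearMap.coe_coe]
    rw [← this]
    change ⟪Δ x, y⟫ = ⟪adj Δ x, y⟫
    rw [hadj]
  set b := hsymm.eigenvectorBasis rfl with hb
  set lam := hsymm.eigenvalues rfl with hlam
  have hΔb : ∀ i, Δ (b i) = lam i • b i := fun i => hsymm.apply_eigenvectorBasis rfl i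
  have hbn : ∀ i, ⟪b i, b i⟫ = 1 := fun i => by
    rw [real_inner_self_eq_norm_sq, b.orthonormal.1 i]; norm_num
  have hlam0 : ∀ i, lam i = 0 := by
    intro i
    have e1 : E * Δ + Δ * F = 0 := by
      rw [hΔ, mul_sub, sub_mul, h]
      abel
    have e2 : ⟪(E * Δ + Δ * F) (b i), b i⟫ = 0 := by rw [e1]; simp
    rw [add_apply, mul_apply_eq_comp, mul_apply_eq_comp, inner_add_left, hΔb, map_smul,
      real_inner_smul_left] at e2
    have e3 : ⟪Δ (F (b i)), b i⟫ = lam i * ⟪F (b i), b i⟫ := by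
      have := hsymm (F (b i)) (b i)
      simp only [ContinuousLinearMap.coe_coe] at this
      rw [this, hΔb, real_inner_smul_right]
    rw [e3] at e2
    have e4 : ⟪Δ (b i), b i⟫ = ⟪E (b i), b i⟫ - ⟪F (b i), b i⟫ := by
      rw [hΔ, sub_apply, inner_sub_left]
    rw [hΔb, real_inner_smul_left, hbn, mul_one] at e4
    have p1 := hE0 (b i)
    have p2 := hF0 (b i)
    by_contra hne
    have e5 : ⟪E (b i), b i⟫ + ⟪F (b i), b i⟫ = 0 := by
      have : lam i * (⟪E (b i), b i⟫ + ⟪F (b i), b i⟫) = 0 := by linarith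
      rcases mul_eq_zero.mp this with h1 | h1
      · exact absurd h1 hne
      · exact h1
    apply hne
    rw [e4]
    linarith
  have hΔ0 : Δ = 0 := by
    apply clm_ext_basis b
    intro i
    rw [hΔb, hlam0, zero_smul, zero_apply]
  exact sub_eq_zero.mp hΔ0

theorem exp_symm_pos {D : V →L[ℝ] V} (hD : adj D = D) (x : V) : 0 ≤ ⟪exp D x, x⟫ := by
  have h1 : exp D = adj (exp ((1 / 2 : ℝ) • D)) * exp ((1 / 2 : ℝ) • D) := by
    have h2 : adj ((1 / 2 : ℝ) • D) = (1 / 2 : ℝ) • D := by
      have : adj ((1 / 2 : ℝ) • D) = (1 / 2 : ℝ) • adj D := by simp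
      rw [this, hD]
    rw [adj_exp, h2, ← exp_add_of_commute (Commute.refl _), ← add_smul]
    norm_num
  rw [h1, mul_apply_eq_comp, ContinuousLinearMap.adjoint_inner_left, real_inner_self_eq_norm_sq]
  positivity

end Sqrt

section Core

variable {V : Type*} [NormedAddCommGroup V] [InnerProductSpace ℝ V] [FiniteDimensional ℝ V]

/-- Being of the form `k * exp D` with `k` an exponential of a skew derivation. -/
def Good (br : V →L[ℝ] V →L[ℝ] V) (g : V →L[ℝ] V) : Prop :=
  ∃ Y D : V →L[ℝ] V, InLie br Y ∧ IsDer br D ∧ adj D = D ∧ g = exp Y * exp D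

theorem inK_of_left {br : V →L[ℝ] V →L[ℝ] V} {k : V →L[ℝ] V} (h : IsHom br k)
    (hk : adj k * k = 1) : InK br k := by
  refine ⟨h, hk, ?_⟩
  have hinj : Function.Injective k := fun x y hxy => by
    have h1 := apply_of_mul_eq_one hk x
    have h2 := apply_of_mul_eq_one hk y
    rw [← h1, ← h2, hxy]
  have hsurj : Function.Surjective k := LinearMap.injective_iff_surjective.mp hinj
  ext x
  obtain ⟨y, rfl⟩ := hsurj x
  rw [mul_apply_eq_comp, apply_of_mul_eq_one hk, one_apply_eq_self]

/-- Along a continuous path of automorphisms, goodness propagates. -/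
theorem good_path {n : ℕ} (hn : Module.finrank ℝ V = n) (e : OrthonormalBasis (Fin n) ℝ V)
    {br : V →L[ℝ] V →L[ℝ] V} (hN : Nondeg br) (hmin : IsMin e br)
    (γ γ' : ℝ → V →L[ℝ] V) (hγ : Continuous γ) (hγγ' : ∀ t, γ t * γ' t = 1)
    (hγ'γ : ∀ t, γ' t * γ t = 1) (hhom : ∀ t, IsHom br (γ t)) (h0 : Good br (γ 0)) :
    Good br (γ 1) := by
  -- uniform propagation
  have hU : ∃ m : ℕ, ∀ s ∈ Set.Icc (0 : ℝ) 1, ∀ t ∈ Set.Icc (0 : ℝ) 1,
      |s - t| ≤ 1 / ((m : ℝ) + 1) → Good br (γ s) → Good br (γ t) := by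
    by_contra hcon
    push Not at hcon
    choose s hs t ht hst hgood hbad using hcon
    choose Y D hY hD hDs hYD using hgood
    choose k' D' hkD' hD'der hD's hk'hom hk' using fun m : ℕ =>
      polar hn e hN hmin (hγγ' (t m)) (hγ'γ (t m)) (hhom (t m))
    have hkK : ∀ m, InK br (exp (Y m)) := fun m => (hY m).exp
    have hk'K : ∀ m, InK br (k' m) := fun m => inK_of_left (hk'hom m) (hk' m)
    set K : Set (V →L[ℝ] V) := {k | InK br k} with hK
    have hKc : IsCompact K := isCompact_K br
    have hcomp : IsCompact ((Set.Icc (0 : ℝ) 1 ×ˢ Set.Icc (0 : ℝ) 1) ×ˢ (K ×ˢ K)) :=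
      (isCompact_Icc.prod isCompact_Icc).prod (hKc.prod hKc)
    obtain ⟨⟨⟨τ, τ'⟩, ⟨k, l⟩⟩, hmem, φ, hφ, hlim⟩ := hcomp.tendsto_subseq
      (x := fun m => ((s m, t m), (exp (Y m), k' m)))
      (fun m => ⟨⟨hs m, ht m⟩, ⟨hkK m, hk'K m⟩⟩)
    have hφt := hφ.tendsto_atTop
    have l1 : Tendsto (fun m => s (φ m)) atTop (𝓝 τ) :=
      ((continuous_fst.comp continuous_fst).tendsto _).comp hlim
    have l2 : Tendsto (fun m => t (φ m)) atTop (𝓝 τ') :=
      ((continuous_snd.comp continuous_fst).tendsto _).comp hlim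
    have l3 : Tendsto (fun m => exp (Y (φ m))) atTop (𝓝 k) :=
      ((continuous_fst.comp continuous_snd).tendsto _).comp hlim
    have l4 : Tendsto (fun m => k' (φ m)) atTop (𝓝 l) :=
      ((continuous_snd.comp continuous_snd).tendsto _).comp hlim
    have hττ' : τ = τ' := by
      have h1 : Tendsto (fun m => |s (φ m) - t (φ m)|) atTop (𝓝 |τ - τ'|) := (l1.sub l2).abs
      have h2 : Tendsto (fun m : ℕ => 1 / (((φ m : ℕ) : ℝ) + 1)) atTop (𝓝 0) :=
        (tendsto_one_div_add_atTop_nhds_zero_nat (𝕜 := ℝ)).comp hφt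
      have h3 : |τ - τ'| ≤ 0 := le_of_tendsto_of_tendsto' h1 h2 fun m => hst (φ m)
      have h4 : τ - τ' = 0 := abs_eq_zero.mp (le_antisymm h3 (abs_nonneg _))
      exact sub_eq_zero.mp h4
    subst hττ'
    have hkK0 : InK br k := hmem.2.1
    have hlK0 : InK br l := hmem.2.2
    -- positive parts
    set E : V →L[ℝ] V := adj k * γ τ with hE
    set F : V →L[ℝ] V := adj l * γ τ with hF
    have g1 : Tendsto (fun m => γ (s (φ m))) atTop (𝓝 (γ τ)) := (hγ.tendsto τ).comp l1
    have g2 : Tendsto (fun m => γ (t (φ m))) atTop (𝓝 (γ τ)) := (hγ.tendsto τ).comp l2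
    have hE1 : ∀ m, exp (D (φ m)) = adj (exp (Y (φ m))) * γ (s (φ m)) := fun m => by
      rw [hYD, ← mul_assoc, (hkK _).2.1, one_mul]
    have hF1 : ∀ m, exp (D' (φ m)) = adj (k' (φ m)) * γ (t (φ m)) := fun m => by
      rw [hkD' (φ m), ← mul_assoc, (hk'K _).2.1, one_mul]
    have hElim : Tendsto (fun m => exp (D (φ m))) atTop (𝓝 E) := by
      simp only [hE1]
      exact ((continuous_adj.tendsto k).comp l3).mul g1
    have hFlim : Tendsto (fun m => exp (D' (φ m))) atTop (𝓝 F) := by
      simp only [hF1]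
      exact ((continuous_adj.tendsto l).comp l4).mul g2
    have hEs : adj E = E := by
      have h1 : Tendsto (fun m => adj (exp (D (φ m)))) atTop (𝓝 (adj E)) :=
        (continuous_adj.tendsto E).comp hElim
      have h2 : ∀ m, adj (exp (D (φ m))) = exp (D (φ m)) := fun m => by rw [adj_exp, hDs]
      simp only [h2] at h1
      exact tendsto_nhds_unique h1 hElim
    have hFs : adj F = F := by
      have h1 : Tendsto (fun m => adj (exp (D' (φ m)))) atTop (𝓝 (adj F)) :=
        (continuous_adj.tendsto F).comp hFlim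
      have h2 : ∀ m, adj (exp (D' (φ m))) = exp (D' (φ m)) := fun m => by
        rw [adj_exp]
        congr 1
        exact hD's (φ m)
      simp only [h2] at h1
      exact tendsto_nhds_unique h1 hFlim
    have hE0 : ∀ x, 0 ≤ ⟪E x, x⟫ := fun x => by
      have h1 : Tendsto (fun m => ⟪exp (D (φ m)) x, x⟫) atTop (𝓝 ⟪E x, x⟫) :=
        (tendsto_clm_apply hElim tendsto_const_nhds).inner tendsto_const_nhds
      exact ge_of_tendsto' h1 fun m => exp_symm_pos (hDs (φ m)) x
    have hF0 : ∀ x, 0 ≤ ⟪F x, x⟫ := fun x => by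
      have h1 : Tendsto (fun m => ⟪exp (D' (φ m)) x, x⟫) atTop (𝓝 ⟪F x, x⟫) :=
        (tendsto_clm_apply hFlim tendsto_const_nhds).inner tendsto_const_nhds
      exact ge_of_tendsto' h1 fun m => exp_symm_pos (hD's (φ m)) x
    have hEF : E = F := by
      apply sqrt_unique hEs hFs hE0 hF0
      have h1 : E * E = adj (γ τ) * γ τ := by
        have h3 : adj E = adj (γ τ) * k := by rw [hE, adj_mul, adj_adj]
        calc E * E = adj E * E := by rw [hEs]
          _ = (adj (γ τ) * k) * (adj k * γ τ) := by rw [h3]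
          _ = adj (γ τ) * ((k * adj k) * γ τ) := by simp only [mul_assoc]
          _ = adj (γ τ) * γ τ := by rw [hkK0.2.2, one_mul]
      have h2 : F * F = adj (γ τ) * γ τ := by
        have h3 : adj F = adj (γ τ) * l := by rw [hF, adj_mul, adj_adj]
        calc F * F = adj F * F := by rw [hFs]
          _ = (adj (γ τ) * l) * (adj l * γ τ) := by rw [h3]
          _ = adj (γ τ) * ((l * adj l) * γ τ) := by simp only [mul_assoc]
          _ = adj (γ τ) * γ τ := by rw [hlK0.2.2, one_mul]
      rw [h1, h2]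
    have hkl : k = l := by
      have h1 : adj k = adj l := by
        calc adj k = E * γ' τ := by rw [hE, mul_assoc, hγγ', mul_one]
          _ = F * γ' τ := by rw [hEF]
          _ = adj l := by rw [hF, mul_assoc, hγγ', mul_one]
      rw [← adj_adj k, h1, adj_adj]
    subst hkl
    -- conclusion
    obtain ⟨ε, hε, hlog⟩ := exists_log_K br 1 one_pos
    have hlim2 : Tendsto (fun m => adj (exp (Y (φ m))) * k' (φ m)) atTop (𝓝 1) := by
      have h1 := ((continuous_adj.tendsto k).comp l3).mul l4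
      rw [hkK0.2.1] at h1
      exact h1
    have hev : ∀ᶠ m in atTop, ‖adj (exp (Y (φ m))) * k' (φ m) - 1‖ < ε :=
      (tendsto_iff_norm_sub_tendsto_zero.mp hlim2).eventually (gt_mem_nhds hε)
    obtain ⟨m, hm⟩ := hev.exists
    obtain ⟨W, -, hWL, hWe⟩ := hlog _ ((hkK (φ m)).adj.mul (hk'K (φ m))) hm
    have hk'e : k' (φ m) = exp (Y (φ m)) * exp W := by
      rw [hWe, ← mul_assoc, (hkK _).2.2, one_mul]
    obtain ⟨X, hX, hXe⟩ := mul_exp_lie (hY (φ m)) hWL
    apply hbad (φ m)
    refine ⟨X, D' (φ m), hX, hD'der (φ m), hD's (φ m), ?_⟩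
    rw [← hXe, ← hk'e]
    exact hkD' (φ m)
  obtain ⟨m, hm⟩ := hU
  have hm0 : (0 : ℝ) < (m : ℝ) + 1 := by positivity
  have hind : ∀ j : ℕ, j ≤ m + 1 → Good br (γ ((j : ℝ) / ((m : ℝ) + 1))) := by
    intro j
    induction j with
    | zero => intro _; simpa using h0
    | succ j ih =>
      intro hj
      have hj1 : (j : ℝ) + 1 ≤ (m : ℝ) + 1 := by exact_mod_cast hj
      have hj0 : (0 : ℝ) ≤ j := Nat.cast_nonneg _
      refine hm ((j : ℝ) / ((m : ℝ) + 1)) ⟨by positivity, ?_⟩
        (((j + 1 : ℕ) : ℝ) / ((m : ℝ) + 1)) ⟨by positivity, ?_⟩ ?_ (ih (by omega))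
      · rw [div_le_one hm0]; linarith
      · rw [div_le_one hm0]; push_cast; exact hj1
      · rw [← sub_div]
        have : (j : ℝ) - ((j + 1 : ℕ) : ℝ) = -1 := by push_cast; ring
        rw [this, abs_div, abs_neg, abs_one, abs_of_pos hm0]
  have := hind (m + 1) le_rfl
  have h1 : ((m + 1 : ℕ) : ℝ) / ((m : ℝ) + 1) = 1 := by
    push_cast
    exact div_self hm0.ne'
  rwa [h1] at this

/-- Products of inner exponentials are good. -/
theorem good_of_prod {n : ℕ} (hn : Module.finrank ℝ V = n) (e : OrthonormalBasis (Fin n) ℝ V)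
    {br : V →L[ℝ] V →L[ℝ] V} (hL : IsLie br) (hN : Nondeg br) (hmin : IsMin e br) (l : List V) :
    Good br (l.map (fun x => exp (br x))).prod := by
  set γ : ℝ → V →L[ℝ] V := fun t => (l.map (fun x => exp (t • br x))).prod with hγ
  set γ' : ℝ → V →L[ℝ] V := fun t => (l.reverse.map (fun x => exp (-(t • br x)))).prod with hγ'
  have hc : Continuous γ := by
    have : ∀ l : List V, Continuous (fun t : ℝ => (l.map (fun x => exp (t • br x))).prod) := by
      intro l
      induction l with
      | nil => simpa using continuous_const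
      | cons x l ih =>
        simp only [List.map_cons, List.prod_cons]
        refine Continuous.mul ?_ ih
        exact exp_continuous.comp (continuous_id.smul continuous_const)
    exact this l
  have h1 : ∀ t, γ t * γ' t = 1 := by
    intro t
    have : ∀ l : List V, (l.map (fun x => exp (t • br x))).prod *
        (l.reverse.map (fun x => exp (-(t • br x)))).prod = 1 := by
      intro l
      induction l with
      | nil => simp
      | cons x l ih =>
        simp only [List.map_cons, List.prod_cons, List.reverse_cons, List.map_append,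
          List.prod_append, List.map_nil, List.prod_nil, mul_one]
        rw [mul_assoc, ← mul_assoc ((l.map (fun x => exp (t • br x))).prod), ih, one_mul,
          exp_mul_exp_neg]
    exact this l
  have h2 : ∀ t, γ' t * γ t = 1 := by
    intro t
    have : ∀ l : List V, (l.reverse.map (fun x => exp (-(t • br x)))).prod *
        (l.map (fun x => exp (t • br x))).prod = 1 := by
      intro l
      induction l with
      | nil => simp
      | cons x l ih =>
        simp only [List.map_cons, List.prod_cons, List.reverse_cons, List.map_append,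
          List.prod_append, List.map_nil, List.prod_nil, mul_one]
        rw [mul_assoc, ← mul_assoc (exp (-(t • br x))), exp_neg_mul_exp, one_mul, ih]
    exact this l
  have h3 : ∀ t, IsHom br (γ t) := by
    intro t
    have : ∀ l : List V, IsHom br (l.map (fun x => exp (t • br x))).prod := by
      intro l
      induction l with
      | nil => simpa using IsHom.one br
      | cons x l ih =>
        simp only [List.map_cons, List.prod_cons]
        exact (((hL.isDer x).smul t).exp_isHom).mul ih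
    exact this l
  have h4 : Good br (γ 0) := by
    have : γ 0 = 1 := by
      have : ∀ l : List V, (l.map (fun x => exp ((0 : ℝ) • br x))).prod = 1 := by
        intro l
        induction l with
        | nil => simp
        | cons x l ih =>
          simp only [List.map_cons, List.prod_cons]
          rw [ih]
          simp
      exact this l
    rw [this]
    refine ⟨0, 0, ⟨fun x y => by simp, by simp [adj]⟩, fun x y => by simp, by simp [adj], by simp⟩
  have h5 := good_path hn e hN hmin γ γ' hc h1 h2 h3 h4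
  have h6 : γ 1 = (l.map (fun x => exp (br x))).prod := by
    simp [hγ]
  rwa [h6] at h5

/-- The closure of the group generated by inner exponentials is itself. -/
theorem mem_of_closure {br : V →L[ℝ] V →L[ℝ] V} (hL : IsLie br) (hN : Nondeg br) {g : V →L[ℝ] V}
    (hg : g ∈ closure {g : V →L[ℝ] V | ∃ l : List V, g = (l.map (fun x => exp (br x))).prod}) :
    ∃ l : List V, g = (l.map (fun x => exp (br x))).prod := by
  have hhom : ∀ l : List V, IsHom br (l.map (fun x => exp (br x))).prod := by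
    intro l
    induction l with
    | nil => simpa using IsHom.one br
    | cons x l ih =>
      simp only [List.map_cons, List.prod_cons]
      exact (hL.isDer x).exp_isHom.mul ih
  have hdet : ∀ l : List V,
      |LinearMap.det (((l.map (fun x => exp (br x))).prod : V →L[ℝ] V) : V →ₗ[ℝ] V)| = 1 := by
    intro l
    induction l with
    | nil =>
      have : (((([] : List V).map (fun x => exp (br x))).prod : V →L[ℝ] V) : V →ₗ[ℝ] V) =
          LinearMap.id := rfl
      rw [this, LinearMap.det_id]; simp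
    | cons x l ih =>
      have h1 : ((((x :: l).map (fun x => exp (br x))).prod : V →L[ℝ] V) : V →ₗ[ℝ] V) =
          ((exp (br x) : V →L[ℝ] V) : V →ₗ[ℝ] V) *
            (((l.map (fun x => exp (br x))).prod : V →L[ℝ] V) : V →ₗ[ℝ] V) := rfl
      rw [h1, map_mul, abs_mul, ih, mul_one]
      exact absdet_of_isHom hN (exp_mul_exp_neg _) (exp_neg_mul_exp _) (hL.isDer x).exp_isHom
  have hclosed1 : IsClosed {k : V →L[ℝ] V | IsHom br k} := by
    have : {k : V →L[ℝ] V | IsHom br k} =
        ⋂ x, ⋂ y, {k : V →L[ℝ] V | k (br x y) = br (k x) (k y)} := by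
      ext k
      simp [IsHom]
    rw [this]
    refine isClosed_iInter fun x => isClosed_iInter fun y => ?_
    refine isClosed_eq (by fun_prop) ?_
    have hx : Continuous (fun k : V →L[ℝ] V => k x) := by fun_prop
    have hy : Continuous (fun k : V →L[ℝ] V => k y) := by fun_prop
    exact (br.continuous.comp hx).clm_apply hy
  have hdetc : Continuous (fun g : V →L[ℝ] V => |LinearMap.det (g : V →ₗ[ℝ] V)|) :=
    (ContinuousLinearMap.continuous_det (𝕜 := ℝ) (E := V)).abs
  have hclosed2 : IsClosed {k : V →L[ℝ] V | |LinearMap.det (k : V →ₗ[ℝ] V)| = 1} :=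
    isClosed_eq hdetc continuous_const
  have hghom : IsHom br g := by
    have : g ∈ {k : V →L[ℝ] V | IsHom br k} := by
      refine closure_minimal ?_ hclosed1 hg
      rintro _ ⟨l, rfl⟩
      exact hhom l
    exact this
  have hgdet : |LinearMap.det (g : V →ₗ[ℝ] V)| = 1 := by
    have : g ∈ {k : V →L[ℝ] V | |LinearMap.det (k : V →ₗ[ℝ] V)| = 1} := by
      refine closure_minimal ?_ hclosed2 hg
      rintro _ ⟨l, rfl⟩
      exact hdet l
    exact this
  have hunit : IsUnit g := by
    apply isUnit_of_det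
    intro h
    rw [h] at hgdet
    simp at hgdet
  obtain ⟨u, rfl⟩ := hunit
  have hinvhom : IsHom br (↑u⁻¹ : V →L[ℝ] V) := hghom.of_mul_eq_one u.mul_inv u.inv_mul
  obtain ⟨ε, hε, hlog⟩ := exists_log_isDer br 1 one_pos
  have hcont : Tendsto (fun k : V →L[ℝ] V => (↑u⁻¹ : V →L[ℝ] V) * k) (𝓝 (u : V →L[ℝ] V))
      (𝓝 1) := by
    have h1 : Continuous (fun k : V →L[ℝ] V => (↑u⁻¹ : V →L[ℝ] V) * k) :=
      continuous_const.mul continuous_id
    have h2 := h1.tendsto (u : V →L[ℝ] V)
    rwa [Units.inv_mul] at h2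
  have hev : ∀ᶠ k in 𝓝 (u : V →L[ℝ] V), ‖(↑u⁻¹ : V →L[ℝ] V) * k - 1‖ < ε :=
    (tendsto_iff_norm_sub_tendsto_zero.mp hcont).eventually (gt_mem_nhds hε)
  obtain ⟨k, hk, ⟨l, hl⟩⟩ := mem_closure_iff_nhds.mp hg _ hev
  have hk' : ‖(↑u⁻¹ : V →L[ℝ] V) * k - 1‖ < ε := hk
  obtain ⟨D, -, hDder, hDe⟩ := hlog _ (hinvhom.mul (by rw [hl]; exact hhom l)) hk'
  obtain ⟨x, hx⟩ := hDder.inner hL hN
  refine ⟨l ++ [-x], ?_⟩
  rw [List.map_append, List.prod_append, ← hl]
  simp only [List.map_cons, List.map_nil, List.prod_cons, List.prod_nil, mul_one, map_neg]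
  rw [← hx]
  calc (u : V →L[ℝ] V) = u * (exp D * exp (-D)) := by rw [exp_mul_exp_neg, mul_one]
    _ = u * (((↑u⁻¹ : V →L[ℝ] V) * k) * exp (-D)) := by rw [hDe]
    _ = k * exp (-D) := by
        rw [← mul_assoc, ← mul_assoc, Units.mul_inv, one_mul]

/-- Core theorem for a minimal Euclidean structure. -/
theorem core {n : ℕ} (hn : Module.finrank ℝ V = n) (e : OrthonormalBasis (Fin n) ℝ V)
    {br : V →L[ℝ] V →L[ℝ] V} (hL : IsLie br) (hN : Nondeg br) (hmin : IsMin e br)
    {g : V →L[ℝ] V}
    (hg : g ∈ closure {g : V →L[ℝ] V | ∃ l : List V, g = (l.map (fun x => exp (br x))).prod}) :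
    ∃ x₁ x₂, g = exp (br x₁) * exp (br x₂) := by
  obtain ⟨l, rfl⟩ := mem_of_closure hL hN hg
  obtain ⟨Y, D, hY, hD, -, h⟩ := good_of_prod hn e hL hN hmin l
  obtain ⟨x₁, hx₁⟩ := hY.1.inner hL hN
  obtain ⟨x₂, hx₂⟩ := hD.inner hL hN
  exact ⟨x₁, x₂, by rw [h, hx₁, hx₂]⟩

end Core

section Final

/-- Intertwining operators intertwine exponentials. -/
theorem exp_intertwine {E F : Type*} [NormedAddCommGroup E] [NormedSpace ℝ E]
    [FiniteDimensional ℝ E] [NormedAddCommGroup F] [NormedSpace ℝ F] [FiniteDimensional ℝ F]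
    (T : E →L[ℝ] F) (A : E →L[ℝ] E) (B : F →L[ℝ] F) (h : ∀ x, T (A x) = B (T x)) (x : E) :
    T (exp A x) = exp B (T x) := by
  have hcA : ∀ (t : ℝ) z, A (exp (t • A) z) = exp (t • A) (A z) := by
    intro t z
    have hcomm : Commute A (exp (t • A)) := by
      apply Commute.exp_right
      exact (Commute.refl A).smul_right t
    have := congrArg (fun f : E →L[ℝ] E => f z) hcomm.eq
    simpa using this
  set f : ℝ → F := fun t => exp (-(t • B)) (T (exp (t • A) x)) with hf
  have hd : ∀ t, HasDerivAt f 0 t := by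
    intro t
    have h1 : HasDerivAt (fun t : ℝ => exp (t • A) x) (exp (t • A) (A x)) t := by
      have h3 := (hasDerivAt_exp_smul_const (𝕂 := ℝ) A t).clm_apply (hasDerivAt_const t x)
      simpa using h3
    have h2 : HasDerivAt (fun t : ℝ => T (exp (t • A) x)) (T (exp (t • A) (A x))) t :=
      (T.hasFDerivAt (x := exp (t • A) x)).comp_hasDerivAt t h1
    have h4 : HasDerivAt (fun t : ℝ => exp (-(t • B))) (exp (-(t • B)) * (-B)) t := by
      have := hasDerivAt_exp_smul_const (𝕂 := ℝ) (-B) t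
      simpa [smul_neg] using this
    have h5 := h4.clm_apply h2
    convert h5 using 1
    rw [← hcA, h, mul_apply_eq_comp, neg_apply, map_neg]
    abel
  have hconst := is_const_of_deriv_eq_zero (fun t => (hd t).differentiableAt)
    (fun t => (hd t).deriv) 1 0
  simp only [hf, one_smul, zero_smul, neg_zero, exp_zero, one_apply_eq_self] at hconst
  have h6 := congrArg (fun z => exp B z) hconst
  rw [apply_of_mul_eq_one (exp_mul_exp_neg B)] at h6
  exact h6

/-- Existence of a Euclidean structure for which the bracket is minimal. -/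
theorem exists_minimal {V : Type*} [NormedAddCommGroup V] [InnerProductSpace ℝ V]
    [FiniteDimensional ℝ V] {n : ℕ} (hn : Module.finrank ℝ V = n)
    (e : OrthonormalBasis (Fin n) ℝ V) {br : V →L[ℝ] V →L[ℝ] V} (hL : IsLie br)
    (hN : Nondeg br) : ∃ g h : V →L[ℝ] V, g * h = 1 ∧ h * g = 1 ∧ IsMin e (tr br g h) := by
  obtain ⟨g, hdet, hmin⟩ := exists_energy_min hn e hL hN
  have hunit : IsUnit g := by
    apply isUnit_of_det
    intro h
    rw [h] at hdet
    simp at hdet
  obtain ⟨u, rfl⟩ := hunit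
  refine ⟨u, (↑u⁻¹ : V →L[ℝ] V), u.mul_inv, u.inv_mul, fun g' hg' => ?_⟩
  have hunit' : IsUnit g' := by
    apply isUnit_of_det
    intro h
    rw [h] at hg'
    simp at hg'
  obtain ⟨w, rfl⟩ := hunit'
  have key : ∀ w : (V →L[ℝ] V)ˣ, energy (tr br u (↑u⁻¹ : V →L[ℝ] V)) e (w : V →L[ℝ] V) =
      energy br e ((w : V →L[ℝ] V) * u) := by
    intro w
    unfold energy
    refine Finset.sum_congr rfl fun i _ => Finset.sum_congr rfl fun j _ => ?_
    have h1 : ((w : V →L[ℝ] V) * u) = ((w * u : (V →L[ℝ] V)ˣ) : V →L[ℝ] V) := rfl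
    rw [h1, Ring.inverse_unit, Ring.inverse_unit, mul_inv_rev]
    simp only [tr_apply, Units.val_mul, mul_apply_eq_comp]
  have h1 := key 1
  rw [Units.val_one, one_mul] at h1
  rw [h1, key w]
  apply hmin
  have h2 : (((w : V →L[ℝ] V) * u : V →L[ℝ] V) : V →ₗ[ℝ] V) =
      ((w : V →L[ℝ] V) : V →ₗ[ℝ] V) * ((u : V →L[ℝ] V) : V →ₗ[ℝ] V) := rfl
  rw [h2, map_mul, abs_mul, hg', hdet, one_mul]

/-- Transport of the statement along a linear isomorphism to a minimal Euclidean structure. -/
theorem two_exp_of_equiv {E V : Type*} [NormedAddCommGroup E] [NormedSpace ℝ E]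
    [FiniteDimensional ℝ E] [NormedAddCommGroup V] [InnerProductSpace ℝ V] [FiniteDimensional ℝ V]
    {n : ℕ} (hn : Module.finrank ℝ V = n) (e : OrthonormalBasis (Fin n) ℝ V)
    {br : E →L[ℝ] E →L[ℝ] E} (hL : IsLie br) (hN : Nondeg br) (ψ : E ≃L[ℝ] V)
    {br' : V →L[ℝ] V →L[ℝ] V} (hbr' : ∀ x y, br' (ψ x) (ψ y) = ψ (br x y))
    (hmin : IsMin e br') (g : E →L[ℝ] E)
    (hg : g ∈ closure {g : E →L[ℝ] E | ∃ l : List E, g = (l.map (fun x => exp (br x))).prod}) :
    ∃ x₁ x₂, g = exp (br x₁) * exp (br x₂) := by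
  have hbr'' : ∀ v w, br' v w = ψ (br (ψ.symm v) (ψ.symm w)) := fun v w => by
    rw [← hbr', ψ.apply_symm_apply, ψ.apply_symm_apply]
  have hL' : IsLie br' := by
    constructor
    · intro v
      rw [hbr'', hL.alt, map_zero]
    · intro x y z
      simp only [hbr'', ψ.symm_apply_apply]
      rw [hL.jac, map_add]
  have hN' : Nondeg br' := by
    intro v hv
    have h1 : ψ.symm v = 0 := by
      apply hN
      intro y
      have h2 := hv (ψ y)
      rw [← h2]
      unfold killing
      rw [← LinearMap.trace_conj' _ ψ.toLinearEquiv]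
      congr 1
      ext z
      simp only [LinearEquiv.conj_apply_apply, LinearMap.comp_apply, ContinuousLinearMap.coe_coe,
        hbr'', ψ.symm_apply_apply]
      rfl
    have := congrArg ψ h1
    rwa [ψ.apply_symm_apply, map_zero] at this
  have hexp : ∀ x z, exp (br' (ψ x)) (ψ z) = ψ (exp (br x) z) := by
    intro x z
    exact (exp_intertwine (ψ : E →L[ℝ] V) (br x) (br' (ψ x)) (fun w => (hbr' x w).symm) z).symm
  set C : (E →L[ℝ] E) → (V →L[ℝ] V) := fun A =>
    (ψ : E →L[ℝ] V) ∘L A ∘L (ψ.symm : V →L[ℝ] E) with hC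
  have hCc : Continuous C := by
    rw [hC]
    fun_prop
  have hCg : C g ∈ closure
      {g : V →L[ℝ] V | ∃ l : List V, g = (l.map (fun x => exp (br' x))).prod} := by
    refine map_mem_closure hCc hg ?_
    rintro _ ⟨l, rfl⟩
    refine ⟨l.map ψ, ?_⟩
    induction l with
    | nil =>
      ext v
      simp [hC]
    | cons x l ih =>
      simp only [List.map_cons, List.prod_cons]
      rw [← ih]
      ext v
      simp only [hC, ContinuousLinearMap.comp_apply, mul_apply_eq_comp,
        ContinuousLinearEquiv.coe_coe]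
      rw [hexp]
  obtain ⟨y₁, y₂, hy⟩ := core hn e hL' hN' hmin hCg
  refine ⟨ψ.symm y₁, ψ.symm y₂, ?_⟩
  ext z
  have h1 := congrArg (fun A : V →L[ℝ] V => A (ψ z)) hy
  simp only [hC, ContinuousLinearMap.comp_apply, mul_apply_eq_comp,
    ContinuousLinearEquiv.coe_coe, ψ.symm_apply_apply] at h1
  have h2 : y₁ = ψ (ψ.symm y₁) := (ψ.apply_symm_apply y₁).symm
  have h3 : y₂ = ψ (ψ.symm y₂) := (ψ.apply_symm_apply y₂).symm
  rw [h2, h3, hexp, hexp] at h1
  exact ψ.injective h1

/-- **Two exponentials suffice.** For a real Lie algebra with nondegenerate Killing form, every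
element of the closure of the group generated by the `exp (ad x)` is a product of two of them. -/
theorem two_exp {E : Type*} [NormedAddCommGroup E] [NormedSpace ℝ E] [FiniteDimensional ℝ E]
    (br : E →L[ℝ] E →L[ℝ] E) (alt : ∀ x, br x x = 0)
    (jac : ∀ x y z, br x (br y z) = br (br x y) z + br y (br x z))
    (kil : ∀ x, (∀ y, LinearMap.trace ℝ E ((br x : E →ₗ[ℝ] E) ∘ₗ (br y : E →ₗ[ℝ] E)) = 0) →
      x = 0)
    (g : E →L[ℝ] E)
    (hg : g ∈ closure {g | ∃ l : List E, g = (l.map (fun x => NormedSpace.exp (br x))).prod}) :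
    ∃ x₁ x₂, g = NormedSpace.exp (br x₁) * NormedSpace.exp (br x₂) := by
  set n := Module.finrank ℝ E with hn
  let V := EuclideanSpace ℝ (Fin n)
  let φ : E ≃L[ℝ] V := toEuclidean
  have hnV : Module.finrank ℝ V = n := by simp [V]
  let e : OrthonormalBasis (Fin n) ℝ V := EuclideanSpace.basisFun _ _
  have hL : IsLie br := ⟨alt, jac⟩
  have hN : Nondeg br := kil
  let br1 : V →L[ℝ] V →L[ℝ] V :=
    ((ContinuousLinearMap.compL ℝ V E V (φ : E →L[ℝ] V)) ∘L
      ((ContinuousLinearMap.compL ℝ V E E).flip (φ.symm : V →L[ℝ] E))) ∘L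
        (br ∘L (φ.symm : V →L[ℝ] E))
  have hbr1 : ∀ v w, br1 v w = φ (br (φ.symm v) (φ.symm w)) := fun v w => by
    simp [br1]
  have hL1 : IsLie br1 := by
    constructor
    · intro v
      rw [hbr1, hL.alt, map_zero]
    · intro x y z
      simp only [hbr1, φ.symm_apply_apply]
      rw [hL.jac, map_add]
  have hN1 : Nondeg br1 := by
    intro v hv
    have h1 : φ.symm v = 0 := by
      apply hN
      intro y
      have h2 := hv (φ y)
      rw [← h2]
      unfold killing
      rw [← LinearMap.trace_conj' _ φ.toLinearEquiv]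
      congr 1
      ext z
      simp only [LinearEquiv.conj_apply_apply, LinearMap.comp_apply, ContinuousLinearMap.coe_coe,
        hbr1, φ.symm_apply_apply]
      rfl
    have := congrArg φ h1
    rwa [φ.apply_symm_apply, map_zero] at this
  obtain ⟨g0, h0, hgh, hhg, hmin⟩ := exists_minimal hnV e hL1 hN1
  let ρ : V ≃L[ℝ] V := ContinuousLinearEquiv.equivOfInverse g0 h0
    (fun x => apply_of_mul_eq_one hhg x) (fun x => apply_of_mul_eq_one hgh x)
  refine two_exp_of_equiv hnV e hL hN (φ.trans ρ) (br' := tr br1 g0 h0) (fun x y => ?_) hmin g hg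
  have hρ : ∀ v, ρ v = g0 v := fun v => rfl
  simp only [ContinuousLinearEquiv.trans_apply, hρ, tr_apply, apply_of_mul_eq_one hhg]
  rw [hbr1, φ.symm_apply_apply, φ.symm_apply_apply]

end Final

end TwoExp
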