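import Mathlib

/-!
# Two exponentials suffice: basic facts on derivations and automorphisms of a bracket

`br : V →L[ℝ] V →L[ℝ] V` is a bilinear bracket on a finite dimensional real normed space.
-/

namespace TwoExp

open NormedSpace Filter Topology

/-- Operators form a normed algebra over the rationals (needed for `NormedSpace.exp`). -/
noncomputable local instance instRatAlg {V : Type*} [NormedAddCommGroup V] [NormedSpace ℝ V] :
    NormedAlgebra ℚ (V →L[ℝ] V) := NormedAlgebra.restrictScalars ℚ ℝ (V →L[ℝ] V)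

section Basic

variable {V : Type*} [NormedAddCommGroup V] [NormedSpace ℝ V] [FiniteDimensional ℝ V]

/-- `D` is a derivation of the bracket `br`. -/
def IsDer (br : V →L[ℝ] V →L[ℝ] V) (D : V →L[ℝ] V) : Prop :=
  ∀ x y, D (br x y) = br (D x) y + br x (D y)

/-- `g` preserves `br`. -/
def IsHom (br : V →L[ℝ] V →L[ℝ] V) (g : V →L[ℝ] V) : Prop :=
  ∀ x y, g (br x y) = br (g x) (g y)

omit [FiniteDimensional ℝ V] in
theorem IsHom.one (br : V →L[ℝ] V →L[ℝ] V) : IsHom br (1 : V →L[ℝ] V) := fun _ _ => rfl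

omit [FiniteDimensional ℝ V] in
theorem IsHom.mul {br : V →L[ℝ] V →L[ℝ] V} {g h : V →L[ℝ] V} (hg : IsHom br g)
    (hh : IsHom br h) : IsHom br (g * h) := fun x y => by
  simp only [mul_apply_eq_comp, hh x y, hg (h x) (h y)]

omit [FiniteDimensional ℝ V] in
theorem IsHom.of_mul_eq_one {br : V →L[ℝ] V →L[ℝ] V} {g h : V →L[ℝ] V} (hg : IsHom br g)
    (h1 : g * h = 1) (h2 : h * g = 1) : IsHom br h := fun x y => by
  have e1 : ∀ z, g (h z) = z := fun z => by
    have := congrArg (fun f : V →L[ℝ] V => f z) h1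
    simpa using this
  have e2 : ∀ z, h (g z) = z := fun z => by
    have := congrArg (fun f : V →L[ℝ] V => f z) h2
    simpa using this
  have : g (br (h x) (h y)) = br x y := by rw [hg, e1, e1]
  rw [← this, e2]

omit [FiniteDimensional ℝ V] in
theorem IsDer.smul {br : V →L[ℝ] V →L[ℝ] V} {D : V →L[ℝ] V} (hD : IsDer br D) (c : ℝ) :
    IsDer br (c • D) := fun x y => by
  simp [hD x y, smul_add]

omit [FiniteDimensional ℝ V] in
theorem IsDer.neg {br : V →L[ℝ] V →L[ℝ] V} {D : V →L[ℝ] V} (hD : IsDer br D) :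
    IsDer br (-D) := fun x y => by
  simp only [neg_apply, hD x y, map_neg]
  abel

omit [FiniteDimensional ℝ V] in
theorem IsDer.sub {br : V →L[ℝ] V →L[ℝ] V} {D D' : V →L[ℝ] V} (hD : IsDer br D)
    (hD' : IsDer br D') : IsDer br (D - D') := fun x y => by
  simp only [sub_apply, hD x y, hD' x y, map_sub]
  abel

/-- The defect of `D` from being a derivation. -/
noncomputable def defect (br : V →L[ℝ] V →L[ℝ] V) (D : V →L[ℝ] V) : V →L[ℝ] V →L[ℝ] V :=
  (ContinuousLinearMap.compL ℝ V V V D) ∘L br - br ∘L D -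
    ((ContinuousLinearMap.compL ℝ V V V).flip D) ∘L br

omit [FiniteDimensional ℝ V] in
theorem defect_apply (br : V →L[ℝ] V →L[ℝ] V) (D : V →L[ℝ] V) (x y : V) :
    defect br D x y = D (br x y) - br (D x) y - br x (D y) := by
  simp [defect]

omit [FiniteDimensional ℝ V] in
theorem defect_eq_zero {br : V →L[ℝ] V →L[ℝ] V} {D : V →L[ℝ] V} (h : defect br D = 0) :
    IsDer br D := fun x y => by
  have := defect_apply br D x y
  rw [h] at this
  simp only [zero_apply] at this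
  have h2 : D (br x y) - (br (D x) y + br x (D y)) = 0 := by rw [← sub_sub]; exact this.symm
  exact sub_eq_zero.mp h2

theorem exp_mul_exp_neg (D : V →L[ℝ] V) : exp D * exp (-D) = 1 := by
  rw [← exp_add_of_commute ((Commute.refl D).neg_right)]; simp

theorem exp_neg_mul_exp (D : V →L[ℝ] V) : exp (-D) * exp D = 1 := by
  rw [← exp_add_of_commute ((Commute.refl D).neg_left)]; simp

theorem hasDerivAt_exp_apply (D : V →L[ℝ] V) (x : V) (t : ℝ) :
    HasDerivAt (fun s : ℝ => exp (-(s • D)) x) (-(exp (-(t • D)) (D x))) t := by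
  have h := (hasDerivAt_exp_smul_const (𝕂 := ℝ) (-D) t).clm_apply (hasDerivAt_const t x)
  simpa [smul_neg] using h

/-- Derivative of the transported bracket. -/
theorem hasDerivAt_transport (br : V →L[ℝ] V →L[ℝ] V) (D : V →L[ℝ] V) (x y : V) (t : ℝ) :
    HasDerivAt (fun s : ℝ => exp (s • D) (br (exp (-(s • D)) x) (exp (-(s • D)) y)))
      (exp (t • D) (defect br D (exp (-(t • D)) x) (exp (-(t • D)) y))) t := by
  have h1 := hasDerivAt_exp_smul_const (𝕂 := ℝ) D t
  have h2 := hasDerivAt_exp_apply D x t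
  have h3 := hasDerivAt_exp_apply D y t
  have hb : HasDerivAt (fun _ : ℝ => br) 0 t := hasDerivAt_const t br
  have h4 := (hb.clm_apply h2).clm_apply h3
  have h5 := h1.clm_apply h4
  have hc : ∀ z, D (exp (-(t • D)) z) = exp (-(t • D)) (D z) := by
    intro z
    have hcomm : Commute D (exp (-(t • D))) := by
      apply Commute.exp_right
      exact ((Commute.refl D).smul_right t).neg_right
    have := congrArg (fun f : V →L[ℝ] V => f z) hcomm.eq
    simpa using this
  convert h5 using 1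
  simp only [defect_apply, hc, map_sub, mul_apply_eq_comp,
    zero_apply, map_neg, neg_apply, zero_add, map_add]
  abel

/-- The exponential of a derivation is an automorphism. -/
theorem IsDer.exp_isHom {br : V →L[ℝ] V →L[ℝ] V} {D : V →L[ℝ] V} (hD : IsDer br D) :
    IsHom br (exp D) := by
  have h0 : defect br D = 0 := by
    ext x y
    rw [defect_apply, hD x y]
    simp
  have key : ∀ x y, exp D (br (exp (-D) x) (exp (-D) y)) = br x y := by
    intro x y
    have hd : ∀ t : ℝ, HasDerivAt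
        (fun s : ℝ => exp (s • D) (br (exp (-(s • D)) x) (exp (-(s • D)) y))) 0 t := by
      intro t
      have := hasDerivAt_transport br D x y t
      rw [h0] at this
      simpa using this
    have hconst := is_const_of_deriv_eq_zero (fun t => (hd t).differentiableAt)
      (fun t => (hd t).deriv) 1 0
    simpa using hconst
  intro x y
  have e2 : ∀ z, exp (-D) (exp D z) = z := fun z => by
    have := congrArg (fun f : V →L[ℝ] V => f z) (exp_neg_mul_exp D)
    simpa using this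
  have := key (exp D x) (exp D y)
  rw [e2, e2] at this
  exact this

/-- If `exp D` preserves the bracket and `D` is small, then `D` is a derivation. -/
theorem exists_small_isDer (br : V →L[ℝ] V →L[ℝ] V) :
    ∃ r > (0 : ℝ), ∀ D : V →L[ℝ] V, ‖D‖ < r → IsHom br (exp D) → IsDer br D := by
  -- choose `r` such that `‖exp D - 1‖ ≤ 1/10` for `‖D‖ < r`
  have hcont : Tendsto (fun D : V →L[ℝ] V => exp D) (𝓝 0) (𝓝 1) := by
    have := (exp_continuous (𝔸 := V →L[ℝ] V)).tendsto 0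
    simpa using this
  have hev : ∀ᶠ D : V →L[ℝ] V in 𝓝 0, ‖exp D - 1‖ < 1 / 10 := by
    have := (tendsto_iff_norm_sub_tendsto_zero.mp hcont)
    exact this.eventually (gt_mem_nhds (by norm_num))
  obtain ⟨r, hr, hball⟩ := Metric.eventually_nhds_iff.mp hev
  refine ⟨r, hr, fun D hDr hHom => ?_⟩
  have hsmall : ∀ t : ℝ, |t| ≤ 1 → ‖exp (t • D) - 1‖ ≤ 1 / 10 := by
    intro t ht
    apply le_of_lt
    apply hball
    rw [dist_zero_right, norm_smul, Real.norm_eq_abs]
    calc |t| * ‖D‖ ≤ 1 * ‖D‖ := by gcongr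
      _ = ‖D‖ := one_mul _
      _ < r := hDr
  have hsm1 : ∀ (t : ℝ), |t| ≤ 1 → ∀ z : V, ‖exp (t • D) z - z‖ ≤ 1 / 10 * ‖z‖ := by
    intro t ht z
    have h1 : exp (t • D) z - z = (exp (t • D) - 1) z := by simp
    rw [h1]
    exact (ContinuousLinearMap.le_opNorm _ _).trans (by gcongr; exact hsmall t ht)
  have hsm2 : ∀ (t : ℝ), |t| ≤ 1 → ∀ z : V, ‖exp (-(t • D)) z - z‖ ≤ 1 / 10 * ‖z‖ := by
    intro t ht z
    have := hsm1 (-t) (by rwa [abs_neg]) z
    rwa [neg_smul] at this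
  have hbd1 : ∀ (t : ℝ), |t| ≤ 1 → ∀ z : V, ‖exp (-(t • D)) z‖ ≤ 11 / 10 * ‖z‖ := by
    intro t ht z
    have h1 : exp (-(t • D)) z = (exp (-(t • D)) z - z) + z := by abel
    rw [h1]
    refine (norm_add_le _ _).trans ?_
    have := hsm2 t ht z
    linarith
  set δ := defect br D with hδ
  have key : ∀ x y, ‖δ x y‖ ≤ (1 / 2 * ‖δ‖) * ‖x‖ * ‖y‖ := by
    intro x y
    set f : ℝ → V := fun s => exp (s • D) (br (exp (-(s • D)) x) (exp (-(s • D)) y)) -
      s • δ x y with hf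
    have hder : ∀ t ∈ Set.Icc (0 : ℝ) 1, HasDerivWithinAt f
        (exp (t • D) (δ (exp (-(t • D)) x) (exp (-(t • D)) y)) - δ x y) (Set.Icc 0 1) t := by
      intro t _
      have h1 := hasDerivAt_transport br D x y t
      have h2 : HasDerivAt (fun s : ℝ => s • δ x y) (δ x y) t := by
        have := (hasDerivAt_id t).smul_const (δ x y)
        simpa using this
      exact (h1.sub h2).hasDerivWithinAt
    have hbound : ∀ t ∈ Set.Ico (0 : ℝ) 1,
        ‖exp (t • D) (δ (exp (-(t • D)) x) (exp (-(t • D)) y)) - δ x y‖ ≤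
          (1 / 2 * ‖δ‖) * ‖x‖ * ‖y‖ := by
      intro t ht
      have ht1 : |t| ≤ 1 := by rw [abs_of_nonneg ht.1]; exact ht.2.le
      set x' := exp (-(t • D)) x
      set y' := exp (-(t • D)) y
      have e : exp (t • D) (δ x' y') - δ x y =
          (exp (t • D) (δ x' y') - δ x' y') + δ (x' - x) y' + δ x (y' - y) := by
        simp only [map_sub, sub_apply]
        abel
      rw [e]
      have hx' : ‖x'‖ ≤ 11 / 10 * ‖x‖ := hbd1 t ht1 x
      have hy' : ‖y'‖ ≤ 11 / 10 * ‖y‖ := hbd1 t ht1 y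
      have hxx : ‖x' - x‖ ≤ 1 / 10 * ‖x‖ := hsm2 t ht1 x
      have hyy : ‖y' - y‖ ≤ 1 / 10 * ‖y‖ := hsm2 t ht1 y
      have hδ0 : 0 ≤ ‖δ‖ := ContinuousLinearMap.opNorm_nonneg _
      have hx0 : 0 ≤ ‖x‖ := norm_nonneg _
      have hy0 : 0 ≤ ‖y‖ := norm_nonneg _
      have n1 : ‖exp (t • D) (δ x' y') - δ x' y'‖ ≤
          1 / 10 * (‖δ‖ * (11 / 10 * ‖x‖) * (11 / 10 * ‖y‖)) := by
        refine (hsm1 t ht1 _).trans ?_
        have : ‖δ x' y'‖ ≤ ‖δ‖ * (11 / 10 * ‖x‖) * (11 / 10 * ‖y‖) := by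
          refine (ContinuousLinearMap.le_opNorm₂ _ _ _).trans ?_
          gcongr
        linarith
      have n2 : ‖δ (x' - x) y'‖ ≤ ‖δ‖ * (1 / 10 * ‖x‖) * (11 / 10 * ‖y‖) := by
        refine (ContinuousLinearMap.le_opNorm₂ _ _ _).trans ?_
        gcongr
      have n3 : ‖δ x (y' - y)‖ ≤ ‖δ‖ * ‖x‖ * (1 / 10 * ‖y‖) := by
        refine (ContinuousLinearMap.le_opNorm₂ _ _ _).trans ?_
        gcongr
      refine (norm_add_le _ _).trans ?_
      have n12 := norm_add_le (exp (t • D) (δ x' y') - δ x' y') (δ (x' - x) y')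
      have hnn : 0 ≤ ‖δ‖ * ‖x‖ * ‖y‖ := by positivity
      nlinarith
    have hmv := norm_image_sub_le_of_norm_deriv_le_segment_01' hder hbound
    have h10 : f 1 - f 0 = -(δ x y) := by
      have hinv : exp D (br (exp (-D) x) (exp (-D) y)) = br x y := by
        rw [hHom]
        have e1 : ∀ z, exp D (exp (-D) z) = z := fun z => by
          have := congrArg (fun f : V →L[ℝ] V => f z) (exp_mul_exp_neg D)
          simpa using this
        rw [e1, e1]
      simp [hf, hinv]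
    rw [h10, norm_neg] at hmv
    exact hmv
  have hle : ‖δ‖ ≤ 1 / 2 * ‖δ‖ := by
    refine ContinuousLinearMap.opNorm_le_bound₂ _ (by positivity) key
  have h0 : ‖δ‖ = 0 := le_antisymm (by linarith) (ContinuousLinearMap.opNorm_nonneg _)
  apply defect_eq_zero
  ext x y
  have := key x y
  rw [h0] at this
  simp only [mul_zero, zero_mul, norm_le_zero_iff] at this
  simpa using this

/-- Local logarithm: near `1`, every operator is the exponential of a small operator. -/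
theorem exists_log (r : ℝ) (hr : 0 < r) :
    ∃ ε > (0 : ℝ), ∀ g : V →L[ℝ] V, ‖g - 1‖ < ε → ∃ D : V →L[ℝ] V, ‖D‖ < r ∧ exp D = g := by
  have h := hasStrictFDerivAt_exp_zero (𝕂 := ℝ) (𝔸 := V →L[ℝ] V)
  have h' : HasStrictFDerivAt (exp : (V →L[ℝ] V) → (V →L[ℝ] V))
      ((ContinuousLinearEquiv.refl ℝ (V →L[ℝ] V) : (V →L[ℝ] V) ≃L[ℝ] (V →L[ℝ] V)) :
        (V →L[ℝ] V) →L[ℝ] (V →L[ℝ] V)) 0 := h
  have hmap := h'.map_nhds_eq_of_equiv
  rw [exp_zero] at hmap
  have hmem : exp '' (Metric.ball (0 : V →L[ℝ] V) r) ∈ 𝓝 (1 : V →L[ℝ] V) := by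
    rw [← hmap]
    exact image_mem_map (Metric.ball_mem_nhds 0 hr)
  obtain ⟨ε, hε, hsub⟩ := Metric.mem_nhds_iff.mp hmem
  refine ⟨ε, hε, fun g hg => ?_⟩
  have : g ∈ Metric.ball (1 : V →L[ℝ] V) ε := by rwa [Metric.mem_ball, dist_eq_norm]
  obtain ⟨D, hD, hDg⟩ := hsub this
  exact ⟨D, by simpa using hD, hDg⟩

/-- Near `0`, the exponential is close to the identity map in the Lipschitz sense. -/
theorem exists_exp_lipschitz (c : ℝ) (hc : 0 < c) :
    ∃ r > (0 : ℝ), ∀ X Y : V →L[ℝ] V, ‖X‖ < r → ‖Y‖ < r →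
      ‖exp X - exp Y - (X - Y)‖ ≤ c * ‖X - Y‖ := by
  have h := (hasStrictFDerivAt_exp_zero (𝕂 := ℝ) (𝔸 := V →L[ℝ] V)).isLittleO
  have h2 := h.bound hc
  rw [nhds_prod_eq] at h2
  obtain ⟨r, hr, hball⟩ := Metric.eventually_nhds_iff.mp (by rwa [← nhds_prod_eq] at h2)
  refine ⟨r, hr, fun X Y hX hY => ?_⟩
  have := hball (y := (X, Y)) (by
    rw [Prod.dist_eq, max_lt_iff]
    constructor
    · simpa using hX
    · simpa using hY)
  simpa using this

/-- Near `0` the exponential is injective. -/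
theorem exists_exp_inj :
    ∃ r > (0 : ℝ), ∀ X Y : V →L[ℝ] V, ‖X‖ < r → ‖Y‖ < r → exp X = exp Y → X = Y := by
  obtain ⟨r, hr, h⟩ := exists_exp_lipschitz (V := V) (1 / 2) (by norm_num)
  refine ⟨r, hr, fun X Y hX hY hXY => ?_⟩
  have := h X Y hX hY
  rw [hXY, sub_self, zero_sub, norm_neg] at this
  have h0 : ‖X - Y‖ = 0 := le_antisymm (by linarith) (norm_nonneg _)
  exact sub_eq_zero.mp (norm_eq_zero.mp h0)

/-- Near `1`, every automorphism is the exponential of a small derivation. -/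
theorem exists_log_isDer (br : V →L[ℝ] V →L[ℝ] V) (r : ℝ) (hr : 0 < r) :
    ∃ ε > (0 : ℝ), ∀ g : V →L[ℝ] V, IsHom br g → ‖g - 1‖ < ε →
      ∃ D : V →L[ℝ] V, ‖D‖ < r ∧ IsDer br D ∧ exp D = g := by
  obtain ⟨r1, hr1, h1⟩ := exists_small_isDer br
  obtain ⟨ε, hε, h2⟩ := exists_log (V := V) (min r r1) (lt_min hr hr1)
  refine ⟨ε, hε, fun g hg hgε => ?_⟩
  obtain ⟨D, hD, hDg⟩ := h2 g hgε
  exact ⟨D, lt_of_lt_of_le hD (min_le_left _ _),
    h1 D (lt_of_lt_of_le hD (min_le_right _ _)) (by rwa [hDg]), hDg⟩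

end Basic

section Inner

variable {V : Type*} [NormedAddCommGroup V] [NormedSpace ℝ V] [FiniteDimensional ℝ V]

/-- The Killing form. -/
noncomputable def killing (br : V →L[ℝ] V →L[ℝ] V) (x y : V) : ℝ :=
  LinearMap.trace ℝ V ((br x : V →ₗ[ℝ] V) ∘ₗ (br y : V →ₗ[ℝ] V))

/-- Nondegeneracy of the Killing form. -/
def Nondeg (br : V →L[ℝ] V →L[ℝ] V) : Prop := ∀ x, (∀ y, killing br x y = 0) → x = 0

/-- A Lie bracket. -/
structure IsLie (br : V →L[ℝ] V →L[ℝ] V) : Prop where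
  alt : ∀ x, br x x = 0
  jac : ∀ x y z, br x (br y z) = br (br x y) z + br y (br x z)

omit [FiniteDimensional ℝ V] in
theorem IsLie.isDer {br : V →L[ℝ] V →L[ℝ] V} (h : IsLie br) (x : V) : IsDer br (br x) :=
  fun y z => h.jac x y z

omit [FiniteDimensional ℝ V] in
theorem IsLie.skew {br : V →L[ℝ] V →L[ℝ] V} (h : IsLie br) (x y : V) : br x y = -br y x := by
  have := h.alt (x + y)
  simp only [map_add, add_apply, h.alt, zero_add, add_zero] at this
  exact eq_neg_of_add_eq_zero_left (by rw [add_comm] at this; exact this)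

/-- Derivations of a bracket with nondegenerate Killing form are inner. -/
theorem IsDer.inner {br : V →L[ℝ] V →L[ℝ] V} (hL : IsLie br) (hN : Nondeg br)
    {D : V →L[ℝ] V} (hD : IsDer br D) : ∃ X, D = br X := by
  -- the Killing form as a linear map `V → V*`
  let κ : V →ₗ[ℝ] Module.Dual ℝ V :=
    { toFun := fun x =>
        { toFun := fun y => killing br x y
          map_add' := fun y z => by
            simp [killing, LinearMap.comp_add]
          map_smul' := fun c y => by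
            simp [killing, LinearMap.comp_smul] }
      map_add' := fun x x' => by
        ext y
        simp [killing, LinearMap.add_comp]
      map_smul' := fun c x => by
        ext y
        simp [killing, LinearMap.smul_comp] }
  have hκinj : Function.Injective κ := by
    rw [← LinearMap.ker_eq_bot, LinearMap.ker_eq_bot']
    intro x hx
    apply hN
    intro y
    exact congrArg (fun f : Module.Dual ℝ V => f y) hx
  have hκsurj : Function.Surjective κ := by
    have hfr : Module.finrank ℝ V = Module.finrank ℝ (Module.Dual ℝ V) :=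
      (Subspace.dual_finrank_eq).symm
    exact (LinearMap.injective_iff_surjective_of_finrank_eq_finrank hfr).mp hκinj
  let φ : Module.Dual ℝ V :=
    { toFun := fun y => LinearMap.trace ℝ V ((D : V →ₗ[ℝ] V) ∘ₗ (br y : V →ₗ[ℝ] V))
      map_add' := fun y z => by simp [LinearMap.comp_add]
      map_smul' := fun c y => by simp [LinearMap.comp_smul] }
  obtain ⟨X, hX⟩ := hκsurj φ
  refine ⟨X, ?_⟩
  have hX' : ∀ y, LinearMap.trace ℝ V ((br X : V →ₗ[ℝ] V) ∘ₗ (br y : V →ₗ[ℝ] V)) =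
      LinearMap.trace ℝ V ((D : V →ₗ[ℝ] V) ∘ₗ (br y : V →ₗ[ℝ] V)) := fun y =>
    congrArg (fun f : Module.Dual ℝ V => f y) hX
  set E : V →L[ℝ] V := D - br X with hE
  have hEder : IsDer br E := hD.sub (hL.isDer X)
  have hEtr : ∀ y, LinearMap.trace ℝ V ((E : V →ₗ[ℝ] V) ∘ₗ (br y : V →ₗ[ℝ] V)) = 0 := by
    intro y
    have : ((E : V →ₗ[ℝ] V) ∘ₗ (br y : V →ₗ[ℝ] V)) =
        (D : V →ₗ[ℝ] V) ∘ₗ (br y : V →ₗ[ℝ] V) - (br X : V →ₗ[ℝ] V) ∘ₗ (br y : V →ₗ[ℝ] V) := by
      ext z; simp [hE]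
    rw [this, map_sub, hX' y, sub_self]
  have hEz : ∀ x, E x = 0 := by
    intro x
    apply hN
    intro y
    have e1 : ((br (E x) : V →ₗ[ℝ] V) ∘ₗ (br y : V →ₗ[ℝ] V)) =
        (E : V →ₗ[ℝ] V) ∘ₗ (br x : V →ₗ[ℝ] V) ∘ₗ (br y : V →ₗ[ℝ] V) -
        (br x : V →ₗ[ℝ] V) ∘ₗ (E : V →ₗ[ℝ] V) ∘ₗ (br y : V →ₗ[ℝ] V) := by
      ext z
      simp [hEder x (br y z)]
    have e2 : LinearMap.trace ℝ V ((br x : V →ₗ[ℝ] V) ∘ₗ (E : V →ₗ[ℝ] V) ∘ₗ (br y : V →ₗ[ℝ] V)) =
        LinearMap.trace ℝ V ((E : V →ₗ[ℝ] V) ∘ₗ (br y : V →ₗ[ℝ] V) ∘ₗ (br x : V →ₗ[ℝ] V)) := by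
      have := LinearMap.trace_mul_comm ℝ (br x : V →ₗ[ℝ] V)
        ((E : V →ₗ[ℝ] V) ∘ₗ (br y : V →ₗ[ℝ] V))
      simpa [Module.End.mul_eq_comp, LinearMap.comp_assoc] using this
    have e3 : (E : V →ₗ[ℝ] V) ∘ₗ (br x : V →ₗ[ℝ] V) ∘ₗ (br y : V →ₗ[ℝ] V) -
        (E : V →ₗ[ℝ] V) ∘ₗ (br y : V →ₗ[ℝ] V) ∘ₗ (br x : V →ₗ[ℝ] V) =
        (E : V →ₗ[ℝ] V) ∘ₗ (br (br x y) : V →ₗ[ℝ] V) := by
      ext z
      simp [hL.jac x y z]
    unfold killing
    rw [e1, map_sub, e2, ← map_sub, e3]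
    exact hEtr _
  ext x
  have := hEz x
  simp only [hE, sub_apply] at this
  exact sub_eq_zero.mp this

end Inner

end TwoExp
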