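import Pool.Agent.TwoExp.Polar

/-!
# The compact part: products of exponentials of skew derivations (discrete geodesics)
-/

namespace TwoExp

open NormedSpace Filter Topology
open scoped RealInnerProductSpace

attribute [local instance] instRatAlg

section Compact

variable {V : Type*} [NormedAddCommGroup V] [InnerProductSpace ℝ V] [FiniteDimensional ℝ V]

/-- Adjoint. -/
noncomputable abbrev adj (A : V →L[ℝ] V) : V →L[ℝ] V := ContinuousLinearMap.adjoint A

theorem adj_mul (A B : V →L[ℝ] V) : adj (A * B) = adj B * adj A :=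
  ContinuousLinearMap.adjoint_comp A B

theorem adj_exp (A : V →L[ℝ] V) : adj (exp A) = exp (adj A) := by
  have := star_exp A
  rwa [ContinuousLinearMap.star_eq_adjoint, ContinuousLinearMap.star_eq_adjoint] at this

theorem adj_one : adj (1 : V →L[ℝ] V) = 1 := by
  have := star_one (V →L[ℝ] V)
  rwa [ContinuousLinearMap.star_eq_adjoint] at this

theorem adj_adj (A : V →L[ℝ] V) : adj (adj A) = A := ContinuousLinearMap.adjoint_adjoint A

theorem adj_sub (A B : V →L[ℝ] V) : adj (A - B) = adj A - adj B := map_sub _ A B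

theorem adj_neg (A : V →L[ℝ] V) : adj (-A) = -adj A := map_neg _ A

theorem norm_adj (A : V →L[ℝ] V) : ‖adj A‖ = ‖A‖ :=
  LinearIsometryEquiv.norm_map ContinuousLinearMap.adjoint A

theorem continuous_adj : Continuous (adj : (V →L[ℝ] V) → (V →L[ℝ] V)) :=
  ContinuousLinearMap.adjoint.continuous

/-- Trace as a continuous linear functional. -/
noncomputable def trc : (V →L[ℝ] V) →L[ℝ] ℝ :=
  LinearMap.toContinuousLinearMap ((LinearMap.trace ℝ V).comp (ContinuousLinearMap.coeLM ℝ))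

theorem trc_apply (A : V →L[ℝ] V) : trc A = LinearMap.trace ℝ V (A : V →ₗ[ℝ] V) := rfl

theorem trc_mul_comm (A B : V →L[ℝ] V) : trc (A * B) = trc (B * A) := by
  rw [trc_apply, trc_apply]
  exact LinearMap.trace_mul_comm ℝ (A : V →ₗ[ℝ] V) (B : V →ₗ[ℝ] V)

theorem trc_eq_sum {ι : Type*} [Fintype ι] (e : OrthonormalBasis ι ℝ V) (A : V →L[ℝ] V) :
    trc A = ∑ i, ⟪e i, A (e i)⟫ := by
  rw [trc_apply, LinearMap.trace_eq_sum_inner _ e]
  rfl

theorem trc_adj (A : V →L[ℝ] V) : trc (adj A) = trc A := by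
  rw [trc_eq_sum (stdOrthonormalBasis ℝ V), trc_eq_sum (stdOrthonormalBasis ℝ V)]
  refine Finset.sum_congr rfl fun i _ => ?_
  rw [ContinuousLinearMap.adjoint_inner_right, real_inner_comm]

theorem trc_adj_mul_self (A : V →L[ℝ] V) :
    trc (adj A * A) = hs (stdOrthonormalBasis ℝ V) A := by
  rw [trc_eq_sum (stdOrthonormalBasis ℝ V)]
  refine Finset.sum_congr rfl fun i _ => ?_
  rw [mul_apply_eq_comp, ContinuousLinearMap.adjoint_inner_right, real_inner_self_eq_norm_sq]

theorem norm_sq_le_trc (A : V →L[ℝ] V) : ‖A‖ ^ 2 ≤ trc (adj A * A) := by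
  rw [trc_adj_mul_self]
  have h1 := norm_sq_le_hs (stdOrthonormalBasis ℝ V) A
  have h0 : 0 ≤ hs (stdOrthonormalBasis ℝ V) A := Finset.sum_nonneg fun i _ => by positivity
  calc ‖A‖ ^ 2 ≤ (Real.sqrt (hs (stdOrthonormalBasis ℝ V) A)) ^ 2 := by gcongr
    _ = _ := Real.sq_sqrt h0

theorem abs_trc_le (A : V →L[ℝ] V) : |trc A| ≤ Module.finrank ℝ V * ‖A‖ := by
  rw [trc_eq_sum (stdOrthonormalBasis ℝ V)]
  refine (Finset.abs_sum_le_sum_abs _ _).trans ?_
  have h1 : ∀ i ∈ (Finset.univ : Finset (Fin (Module.finrank ℝ V))),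
      |⟪stdOrthonormalBasis ℝ V i, A (stdOrthonormalBasis ℝ V i)⟫| ≤ ‖A‖ := by
    intro i _
    refine (abs_real_inner_le_norm _ _).trans ?_
    have hn := (stdOrthonormalBasis ℝ V).orthonormal.1 i
    rw [hn, one_mul]
    refine (A.le_opNorm _).trans ?_
    rw [hn, mul_one]
  refine (Finset.sum_le_sum h1).trans ?_
  simp

theorem trc_le_of_norm (A : V →L[ℝ] V) : trc (adj A * A) ≤ Module.finrank ℝ V * ‖A‖ ^ 2 := by
  refine (le_abs_self _).trans ((abs_trc_le _).trans ?_)
  have : ‖adj A * A‖ ≤ ‖A‖ ^ 2 := by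
    refine (norm_mul_le _ _).trans ?_
    rw [norm_adj, sq]
  gcongr

/-- The compact group. -/
def InK (br : V →L[ℝ] V →L[ℝ] V) (k : V →L[ℝ] V) : Prop :=
  IsHom br k ∧ adj k * k = 1 ∧ k * adj k = 1

/-- Its Lie algebra. -/
def InLie (br : V →L[ℝ] V →L[ℝ] V) (Y : V →L[ℝ] V) : Prop :=
  IsDer br Y ∧ adj Y = -Y

theorem InLie.smul {br : V →L[ℝ] V →L[ℝ] V} {Y : V →L[ℝ] V} (h : InLie br Y) (c : ℝ) :
    InLie br (c • Y) := by
  refine ⟨h.1.smul c, ?_⟩
  have : adj (c • Y) = c • adj Y := by simp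
  rw [this, h.2, smul_neg]

theorem InLie.sub {br : V →L[ℝ] V →L[ℝ] V} {Y Z : V →L[ℝ] V} (h : InLie br Y)
    (h' : InLie br Z) : InLie br (Y - Z) := by
  refine ⟨h.1.sub h'.1, ?_⟩
  rw [adj_sub, h.2, h'.2]
  abel

theorem InLie.exp {br : V →L[ℝ] V →L[ℝ] V} {Y : V →L[ℝ] V} (h : InLie br Y) :
    InK br (exp Y) := by
  refine ⟨h.1.exp_isHom, ?_, ?_⟩
  · rw [adj_exp, h.2, exp_neg_mul_exp]
  · rw [adj_exp, h.2, exp_mul_exp_neg]

theorem InK.mul {br : V →L[ℝ] V →L[ℝ] V} {k l : V →L[ℝ] V} (hk : InK br k) (hl : InK br l) :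
    InK br (k * l) := by
  refine ⟨hk.1.mul hl.1, ?_, ?_⟩
  · rw [adj_mul, mul_assoc, ← mul_assoc (adj k), hk.2.1, one_mul, hl.2.1]
  · rw [adj_mul, mul_assoc, ← mul_assoc l, hl.2.2, one_mul, hk.2.2]

theorem InK.adj {br : V →L[ℝ] V →L[ℝ] V} {k : V →L[ℝ] V} (hk : InK br k) :
    InK br (adj k) :=
  ⟨hk.1.of_mul_eq_one hk.2.2 hk.2.1, by rw [adj_adj]; exact hk.2.2, by
    rw [adj_adj]; exact hk.2.1⟩

theorem InK.one (br : V →L[ℝ] V →L[ℝ] V) : InK br (1 : V →L[ℝ] V) :=
  ⟨IsHom.one br, by rw [adj_one, one_mul], by rw [adj_one, one_mul]⟩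

theorem InK.norm_le {br : V →L[ℝ] V →L[ℝ] V} {k : V →L[ℝ] V} (hk : InK br k) : ‖k‖ ≤ 1 := by
  refine ContinuousLinearMap.opNorm_le_bound _ zero_le_one fun x => ?_
  have h1 : ‖k x‖ ^ 2 = ‖x‖ ^ 2 := by
    rw [← real_inner_self_eq_norm_sq, ← ContinuousLinearMap.adjoint_inner_right]
    have h2 : ContinuousLinearMap.adjoint k (k x) = x := apply_of_mul_eq_one hk.2.1 x
    rw [h2, real_inner_self_eq_norm_sq]
  rw [one_mul]
  exact (pow_le_pow_iff_left₀ (norm_nonneg _) (norm_nonneg _) two_ne_zero).mp h1.le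

theorem isCompact_K (br : V →L[ℝ] V →L[ℝ] V) : IsCompact {k : V →L[ℝ] V | InK br k} := by
  apply Metric.isCompact_of_isClosed_isBounded
  · have h1 : IsClosed {k : V →L[ℝ] V | IsHom br k} := by
      have : {k : V →L[ℝ] V | IsHom br k} =
          ⋂ x, ⋂ y, {k : V →L[ℝ] V | k (br x y) = br (k x) (k y)} := by
        ext k
        simp [IsHom]
      rw [this]
      refine isClosed_iInter fun x => isClosed_iInter fun y => ?_
      refine isClosed_eq (by fun_prop) ?_
      have hx : Continuous (fun k : V →L[ℝ] V => k x) := by fun_prop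
      have hy : Continuous (fun k : V →L[ℝ] V => k y) := by fun_prop
      exact (br.continuous.comp hx).clm_apply hy
    have h2 : IsClosed {k : V →L[ℝ] V | adj k * k = 1} :=
      isClosed_eq (continuous_adj.mul continuous_id) continuous_const
    have h3 : IsClosed {k : V →L[ℝ] V | k * adj k = 1} :=
      isClosed_eq (continuous_id.mul continuous_adj) continuous_const
    exact h1.inter (h2.inter h3)
  · refine (Metric.isBounded_closedBall (x := (0 : V →L[ℝ] V)) (r := 1)).subset ?_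
    intro k hk
    rw [mem_closedBall_zero_iff]
    exact InK.norm_le hk

/-- Local logarithm in the compact group. -/
theorem exists_log_K (br : V →L[ℝ] V →L[ℝ] V) (r : ℝ) (hr : 0 < r) :
    ∃ ε > (0 : ℝ), ∀ k : V →L[ℝ] V, InK br k → ‖k - 1‖ < ε →
      ∃ Y : V →L[ℝ] V, ‖Y‖ < r ∧ InLie br Y ∧ exp Y = k := by
  obtain ⟨r1, hr1, hinj⟩ := exists_exp_inj (V := V)
  obtain ⟨ε, hε, hlog⟩ := exists_log_isDer br (min r r1) (lt_min hr hr1)
  refine ⟨ε, hε, fun k hk hkε => ?_⟩
  obtain ⟨Y, hY, hYder, hYk⟩ := hlog k hk.1 hkε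
  refine ⟨Y, lt_of_lt_of_le hY (min_le_left _ _), ⟨hYder, ?_⟩, hYk⟩
  have hYr1 : ‖Y‖ < r1 := lt_of_lt_of_le hY (min_le_right _ _)
  apply hinj
  · rwa [norm_adj]
  · rwa [norm_neg]
  · rw [← adj_exp, hYk]
    have h1 : adj k * k = 1 := hk.2.1
    have h2 : exp (-Y) * k = 1 := by rw [← hYk, exp_neg_mul_exp]
    have h3 : k * adj k = 1 := hk.2.2
    calc adj k = (exp (-Y) * k) * adj k := by rw [h2, one_mul]
      _ = exp (-Y) * (k * adj k) := by rw [mul_assoc]
      _ = exp (-Y) := by rw [h3, mul_one]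

/-- Strict monotonicity of the exponential near `0` on skew operators. -/
theorem exists_monotone : ∃ r > (0 : ℝ), ∀ X Y : V →L[ℝ] V, adj X = -X → adj Y = -Y →
    ‖X‖ < r → ‖Y‖ < r → trc ((exp X - exp Y) * (X - Y)) = 0 → X = Y := by
  set c : ℝ := 1 / (2 * ((Module.finrank ℝ V : ℝ) + 1)) with hc
  have hn0 : (0 : ℝ) ≤ Module.finrank ℝ V := Nat.cast_nonneg _
  have hc0 : 0 < c := by positivity
  obtain ⟨r, hr, hlip⟩ := exists_exp_lipschitz (V := V) c hc0
  refine ⟨r, hr, fun X Y hX hY hXr hYr h0 => ?_⟩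
  set Δ := X - Y with hΔ
  set R := exp X - exp Y - Δ with hR
  have hRn : ‖R‖ ≤ c * ‖Δ‖ := hlip X Y hXr hYr
  have hadj : adj Δ = -Δ := by rw [hΔ, adj_sub, hX, hY]; abel
  have h1 : trc (Δ * Δ) + trc (R * Δ) = 0 := by
    rw [← map_add, ← add_mul]
    have : Δ + R = exp X - exp Y := by rw [hR]; abel
    rw [this, h0]
  have h2 : trc (Δ * Δ) = -trc (adj Δ * Δ) := by
    rw [hadj, neg_mul, map_neg, neg_neg]
  have h3 := norm_sq_le_trc Δ
  have h4 : |trc (R * Δ)| ≤ Module.finrank ℝ V * (c * ‖Δ‖ * ‖Δ‖) := by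
    refine (abs_trc_le _).trans ?_
    gcongr
    refine (norm_mul_le _ _).trans ?_
    gcongr
  have h5 : trc (R * Δ) ≤ Module.finrank ℝ V * (c * ‖Δ‖ * ‖Δ‖) := (le_abs_self _).trans h4
  have h6 : (Module.finrank ℝ V : ℝ) * c ≤ 1 / 2 := by
    rw [hc]
    rw [mul_one_div, div_le_div_iff₀ (by positivity) (by norm_num)]
    linarith
  have h7 : ‖Δ‖ ^ 2 ≤ 1 / 2 * ‖Δ‖ ^ 2 := by
    calc ‖Δ‖ ^ 2 ≤ trc (adj Δ * Δ) := h3
      _ = trc (R * Δ) := by linarith
      _ ≤ Module.finrank ℝ V * (c * ‖Δ‖ * ‖Δ‖) := h5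
      _ = (Module.finrank ℝ V * c) * ‖Δ‖ ^ 2 := by ring
      _ ≤ 1 / 2 * ‖Δ‖ ^ 2 := by gcongr
  have h8 : ‖Δ‖ ^ 2 = 0 := le_antisymm (by linarith) (sq_nonneg _)
  have h9 : ‖Δ‖ = 0 := pow_eq_zero_iff two_ne_zero |>.mp h8
  exact sub_eq_zero.mp (norm_eq_zero.mp h9)

theorem trc_step {br : V →L[ℝ] V →L[ℝ] V} {S : V →L[ℝ] V} (hS : InK br S) :
    trc (adj (S - 1) * (S - 1)) = 2 * (Module.finrank ℝ V - trc S) := by
  have e1 : adj (S - 1) * (S - 1) = 1 - adj S - S + 1 := by
    rw [adj_sub, adj_one, sub_mul, mul_sub, mul_one, one_mul, hS.2.1]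
    abel
  have e2 : trc (1 : V →L[ℝ] V) = Module.finrank ℝ V := by
    rw [trc_apply]
    exact LinearMap.trace_one ℝ V
  rw [e1, map_add, map_sub, map_sub, trc_adj, e2]
  ring

/-- The product of two exponentials of skew derivations is again one. -/
theorem mul_exp_lie {br : V →L[ℝ] V →L[ℝ] V} {Y Z : V →L[ℝ] V} (hY : InLie br Y)
    (hZ : InLie br Z) : ∃ X, InLie br X ∧ exp Y * exp Z = exp X := by
  obtain ⟨r, hr, hmono⟩ := exists_monotone (V := V)
  obtain ⟨ε, hε, hlog⟩ := exists_log_K br r hr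
  obtain ⟨r1, hr1, hlip⟩ := exists_exp_lipschitz (V := V) 1 one_pos
  set L : ℝ := max ‖Y‖ ‖Z‖ + 1 with hL
  have hL0 : 0 < L := by positivity
  have hYL : ‖Y‖ ≤ L := by rw [hL]; linarith [le_max_left ‖Y‖ ‖Z‖]
  have hZL : ‖Z‖ ≤ L := by rw [hL]; linarith [le_max_right ‖Y‖ ‖Z‖]
  set N : ℝ := (Module.finrank ℝ V : ℝ) with hN
  have hN0 : 0 ≤ N := Nat.cast_nonneg _
  -- choose the number of steps
  obtain ⟨R, hR⟩ := exists_nat_gt (max (L / r1) (max 0 (8 * N * L ^ 2 / ε ^ 2)))
  have hRr1 : L / r1 < R := lt_of_le_of_lt (le_max_left _ _) hR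
  have hR0 : (0 : ℝ) < R := lt_of_le_of_lt ((le_max_left _ _).trans (le_max_right _ _)) hR
  have hRε : 8 * N * L ^ 2 / ε ^ 2 < R :=
    lt_of_le_of_lt ((le_max_right _ _).trans (le_max_right _ _)) hR
  have hRnat : 0 < R := by exact_mod_cast hR0
  set g := exp Y * exp Z with hg
  have hgK : InK br g := hY.exp.mul hZ.exp
  -- the initial path
  set P0 : ℕ → V →L[ℝ] V := fun i =>
    exp ((((min i R : ℕ) : ℝ) / R) • Y) * exp ((((i - R : ℕ) : ℝ) / R) • Z) with hP0
  have hP0K : ∀ i, InK br (P0 i) := fun i => (hY.smul _).exp.mul (hZ.smul _).exp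
  have hP00 : P0 0 = 1 := by simp [hP0]
  have hP0m : P0 (2 * R) = g := by
    have h1 : min (2 * R) R = R := by omega
    have h2 : 2 * R - R = R := by omega
    simp only [hP0, h1, h2]
    rw [div_self hR0.ne', one_smul, one_smul]
  -- the constraint set
  set Ω : Set (ℕ → V →L[ℝ] V) :=
    (Set.pi Set.univ fun _ => {k : V →L[ℝ] V | InK br k}) ∩ {P | P 0 = 1 ∧ P (2 * R) = g} with hΩ
  have hΩc : IsCompact Ω := by
    apply (isCompact_univ_pi fun _ => isCompact_K br).inter_right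
    exact (isClosed_eq (continuous_apply 0) continuous_const).inter
      (isClosed_eq (continuous_apply (2 * R)) continuous_const)
  have hP0Ω : P0 ∈ Ω := ⟨fun i _ => hP0K i, hP00, hP0m⟩
  set Φ : (ℕ → V →L[ℝ] V) → ℝ := fun P =>
    ∑ i ∈ Finset.range (2 * R), trc (adj (P i) * P (i + 1)) with hΦ
  have hΦc : Continuous Φ := by
    refine continuous_finsetSum _ fun i _ => ?_
    exact trc.continuous.comp ((continuous_adj.comp (continuous_apply i)).mul
      (continuous_apply (i + 1)))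
  obtain ⟨P, hPΩ, hPmax⟩ := hΩc.exists_isMaxOn ⟨P0, hP0Ω⟩ hΦc.continuousOn
  have hPK : ∀ i, InK br (P i) := fun i => hPΩ.1 i (Set.mem_univ i)
  set S : ℕ → V →L[ℝ] V := fun i => adj (P i) * P (i + 1) with hS
  have hSK : ∀ i, InK br (S i) := fun i => (hPK i).adj.mul (hPK (i + 1))
  -- steps of the initial path
  have hstep0 : ∀ i, ∃ W : V →L[ℝ] V, ‖W‖ ≤ L / R ∧ InLie br W ∧
      adj (P0 i) * P0 (i + 1) = exp W := by
    intro i
    have hsub : ∀ (A : V →L[ℝ] V), adj A = -A → ∀ (a : ℝ), adj (a • A) = -(a • A) := by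
      intro A hA a
      have : adj (a • A) = a • adj A := by simp
      rw [this, hA, smul_neg]
    rcases lt_or_ge i R with hi | hi
    · refine ⟨(1 / (R : ℝ)) • Y, ?_, hY.smul _, ?_⟩
      · rw [norm_smul, Real.norm_eq_abs, abs_of_pos (by positivity), one_div, inv_mul_eq_div]
        gcongr
      · have h1 : min i R = i := by omega
        have h2 : i - R = 0 := by omega
        have h3 : min (i + 1) R = i + 1 := by omega
        have h4 : i + 1 - R = 0 := by omega
        simp only [hP0, h1, h2, h3, h4, Nat.cast_zero, zero_div, zero_smul, exp_zero, mul_one]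
        rw [adj_exp, hsub Y hY.2, ← neg_smul, ← exp_add_of_commute
          (((Commute.refl Y).smul_left _).smul_right _), ← add_smul]
        congr 2
        push_cast
        field_simp
        ring
    · refine ⟨(1 / (R : ℝ)) • Z, ?_, hZ.smul _, ?_⟩
      · rw [norm_smul, Real.norm_eq_abs, abs_of_pos (by positivity), one_div, inv_mul_eq_div]
        gcongr
      · have h1 : min i R = R := by omega
        have h3 : min (i + 1) R = R := by omega
        simp only [hP0, h1, h3]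
        rw [div_self hR0.ne', one_smul, adj_mul, mul_assoc, ← mul_assoc (adj (exp Y)),
          hY.exp.2.1, one_mul, adj_exp, hsub Z hZ.2, ← neg_smul, ← exp_add_of_commute
          (((Commute.refl Z).smul_left _).smul_right _), ← add_smul]
        congr 2
        have h5 : ((i + 1 - R : ℕ) : ℝ) = ((i - R : ℕ) : ℝ) + 1 := by
          have : i + 1 - R = (i - R) + 1 := by omega
          rw [this]; push_cast; ring
        rw [h5]
        field_simp
        ring
  have hdef0 : ∀ i, N - trc (adj (P0 i) * P0 (i + 1)) ≤ 2 * N * L ^ 2 / R ^ 2 := by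
    intro i
    obtain ⟨W, hWn, hWL, hWe⟩ := hstep0 i
    rw [hWe]
    have h1 := trc_step hWL.exp
    have h2 := trc_le_of_norm (exp W - 1)
    have hWr1 : ‖W‖ < r1 := by
      refine lt_of_le_of_lt hWn ?_
      rw [div_lt_iff₀ hR0]
      rw [div_lt_iff₀ hr1] at hRr1
      linarith
    have h3 := hlip W 0 hWr1 (by simpa using hr1)
    rw [exp_zero, sub_zero] at h3
    have h4 : ‖exp W - 1‖ ≤ 2 * (L / R) := by
      have : exp W - 1 = (exp W - 1 - W) + W := by abel
      rw [this]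
      refine (norm_add_le _ _).trans ?_
      linarith
    have h5 : ‖exp W - 1‖ ^ 2 ≤ (2 * (L / R)) ^ 2 := by gcongr
    have h6 : N * ‖exp W - 1‖ ^ 2 ≤ N * (2 * (L / R)) ^ 2 := by gcongr
    have h7 : N * (2 * (L / R)) ^ 2 = 2 * (2 * N * L ^ 2 / R ^ 2) := by
      field_simp
      try ring
    rw [← hN] at h1 h2
    linarith
  -- smallness of the steps at the maximiser
  have hΦge : (2 * R : ℕ) * N - 4 * N * L ^ 2 / R ≤ Φ P := by
    have h1 : Φ P0 ≤ Φ P := hPmax hP0Ω
    have h2 : ∑ i ∈ Finset.range (2 * R), (N - trc (adj (P0 i) * P0 (i + 1))) ≤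
        ∑ _i ∈ Finset.range (2 * R), 2 * N * L ^ 2 / R ^ 2 :=
      Finset.sum_le_sum fun i _ => hdef0 i
    rw [Finset.sum_sub_distrib, Finset.sum_const, Finset.sum_const, Finset.card_range,
      nsmul_eq_mul, nsmul_eq_mul] at h2
    have h3 : ((2 * R : ℕ) : ℝ) * (2 * N * L ^ 2 / R ^ 2) = 4 * N * L ^ 2 / R := by
      push_cast
      field_simp
      try ring
    rw [h3] at h2
    change _ - Φ P0 ≤ _ at h2
    linarith
  have hsmall : ∀ i, i < 2 * R → ‖S i - 1‖ < ε := by
    intro i hi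
    have h1 : ∀ j, 0 ≤ N - trc (S j) := by
      intro j
      have h2 := trc_step (hSK j)
      have h3 := norm_sq_le_trc (S j - 1)
      rw [← hN] at h2
      nlinarith [sq_nonneg ‖S j - 1‖]
    have h2 : N - trc (S i) ≤ ∑ j ∈ Finset.range (2 * R), (N - trc (S j)) :=
      Finset.single_le_sum (f := fun j => N - trc (S j)) (fun j _ => h1 j)
        (Finset.mem_range.mpr hi)
    rw [Finset.sum_sub_distrib, Finset.sum_const, Finset.card_range, nsmul_eq_mul] at h2
    have h3 : ∑ j ∈ Finset.range (2 * R), trc (S j) = Φ P := rfl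
    rw [h3] at h2
    have h4 := trc_step (hSK i)
    have h5 := norm_sq_le_trc (S i - 1)
    rw [← hN] at h4
    have h6 : ‖S i - 1‖ ^ 2 ≤ 8 * N * L ^ 2 / R := by
      have : 8 * N * L ^ 2 / R = 2 * (4 * N * L ^ 2 / R) := by ring
      rw [this]
      linarith
    have h7 : 8 * N * L ^ 2 / R < ε ^ 2 := by
      rw [div_lt_iff₀ hR0]
      rw [div_lt_iff₀ (by positivity)] at hRε
      linarith
    have h8 : ‖S i - 1‖ ^ 2 < ε ^ 2 := lt_of_le_of_lt h6 h7
    exact (pow_lt_pow_iff_left₀ (norm_nonneg _) hε.le two_ne_zero).mp h8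
  choose! X hXr hXL hXe using fun i (hi : i < 2 * R) => hlog (S i) (hSK i) (hsmall i hi)
  -- stationarity
  have hstat : ∀ i, i + 1 < 2 * R → ∀ W, InLie br W → trc (S i * W) - trc (W * S (i + 1)) = 0 := by
    intro i hi W hW
    set h : ℝ → ℝ := fun s => trc (S i * exp (s • W)) + trc (exp (-(s • W)) * S (i + 1)) with hh
    have hmax : ∀ s, h s ≤ h 0 := by
      intro s
      set P' : ℕ → V →L[ℝ] V := Function.update P (i + 1) (P (i + 1) * exp (s • W)) with hP'
      have hP'Ω : P' ∈ Ω := by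
        refine ⟨fun j _ => ?_, ?_, ?_⟩
        · change InK br (P' j)
          by_cases hj : j = i + 1
          · subst hj
            rw [hP', Function.update_self]
            exact (hPK _).mul (hW.smul s).exp
          · rw [hP', Function.update_of_ne hj]
            exact hPK j
        · rw [hP', Function.update_of_ne (by omega)]
          exact hPΩ.2.1
        · rw [hP', Function.update_of_ne (by omega)]
          exact hPΩ.2.2
      have h1 : Φ P' ≤ Φ P := hPmax hP'Ω
      have h2 : Φ P' - Φ P = (trc (adj (P' i) * P' (i + 1)) - trc (adj (P i) * P (i + 1))) +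
          (trc (adj (P' (i + 1)) * P' (i + 1 + 1)) -
            trc (adj (P (i + 1)) * P (i + 1 + 1))) := by
        rw [hΦ]
        simp only
        rw [← Finset.sum_sub_distrib]
        apply Finset.sum_eq_add i (i + 1) (by omega)
        · intro j _ hj
          have e1 : P' j = P j := by rw [hP', Function.update_of_ne hj.2]
          have e2 : P' (j + 1) = P (j + 1) := by
            rw [hP', Function.update_of_ne (by omega)]
          rw [e1, e2, sub_self]
        · intro hni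
          exact absurd (Finset.mem_range.mpr (by omega)) hni
        · intro hni
          exact absurd (Finset.mem_range.mpr (by omega)) hni
      have e0 : P' i = P i := by rw [hP', Function.update_of_ne (by omega)]
      have e1 : P' (i + 1) = P (i + 1) * exp (s • W) := by rw [hP', Function.update_self]
      have e2 : P' (i + 1 + 1) = P (i + 1 + 1) := by rw [hP', Function.update_of_ne (by omega)]
      have e3 : adj (P' i) * P' (i + 1) = S i * exp (s • W) := by
        rw [e0, e1, hS, ← mul_assoc]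
      have e4 : adj (P' (i + 1)) * P' (i + 1 + 1) = exp (-(s • W)) * S (i + 1) := by
        rw [e1, e2, adj_mul, adj_exp, (hW.smul s).2, mul_assoc]
      rw [e3, e4] at h2
      have h3 : h s = trc (S i * exp (s • W)) + trc (exp (-(s • W)) * S (i + 1)) := rfl
      have h4 : h 0 = trc (adj (P i) * P (i + 1)) + trc (adj (P (i + 1)) * P (i + 1 + 1)) := by
        simp [hh, hS]
      rw [h3, h4]
      linarith
    have hder : HasDerivAt h (trc (S i * W) - trc (W * S (i + 1))) 0 := by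
      have d1 : HasDerivAt (fun s : ℝ => exp (s • W)) W 0 := by
        simpa using hasDerivAt_exp_smul_const (𝕂 := ℝ) W 0
      have d2 : HasDerivAt (fun s : ℝ => exp (-(s • W))) (-W) 0 := by
        simpa using hasDerivAt_exp_smul_const (𝕂 := ℝ) (-W) 0
      have d3 : HasDerivAt (fun s : ℝ => S i * exp (s • W)) (S i * W) 0 := d1.const_mul (S i)
      have d4 : HasDerivAt (fun s : ℝ => exp (-(s • W)) * S (i + 1)) (-W * S (i + 1)) 0 :=
        d2.mul_const (S (i + 1))
      have d5 : HasDerivAt (fun s : ℝ => trc (S i * exp (s • W))) (trc (S i * W)) 0 :=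
        ((trc (V := V)).hasFDerivAt (x := S i * exp ((0 : ℝ) • W))).comp_hasDerivAt 0 d3
      have d6 : HasDerivAt (fun s : ℝ => trc (exp (-(s • W)) * S (i + 1)))
          (trc (-W * S (i + 1))) 0 :=
        ((trc (V := V)).hasFDerivAt (x := exp (-((0 : ℝ) • W)) * S (i + 1))).comp_hasDerivAt 0 d4
      have d7 := d5.fun_add d6
      rw [neg_mul, map_neg, ← sub_eq_add_neg] at d7
      exact d7
    have hloc : IsLocalMax h 0 := Filter.Eventually.of_forall hmax
    exact hloc.hasDerivAt_eq_zero hder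
  have hSS : ∀ i, i + 1 < 2 * R → S (i + 1) = S i := by
    intro i hi
    have hi' : i < 2 * R := by omega
    have hXX : X i = X (i + 1) := by
      apply hmono (X i) (X (i + 1)) (hXL i hi').2 (hXL (i + 1) hi).2 (hXr i hi') (hXr (i + 1) hi)
      have h1 := hstat i hi (X i - X (i + 1)) ((hXL i hi').sub (hXL (i + 1) hi))
      rw [trc_mul_comm (X i - X (i + 1)) (S (i + 1)), ← map_sub, ← sub_mul] at h1
      rw [hXe i hi', hXe (i + 1) hi]
      exact h1
    rw [← hXe i hi', ← hXe (i + 1) hi, hXX]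
  have hSall : ∀ i, i < 2 * R → S i = S 0 := by
    intro i
    induction i with
    | zero => intro _; rfl
    | succ i ih => intro hi; rw [hSS i hi, ih (by omega)]
  have hPpow : ∀ i, i ≤ 2 * R → P i = S 0 ^ i := by
    intro i
    induction i with
    | zero => intro _; rw [pow_zero]; exact hPΩ.2.1
    | succ i ih =>
      intro hi
      have h1 : P (i + 1) = P i * S i := by
        rw [hS]
        simp only
        rw [← mul_assoc, (hPK i).2.2, one_mul]
      rw [h1, hSall i (by omega), ih (by omega), pow_succ]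
  refine ⟨((2 * R : ℕ) : ℝ) • X 0, (hXL 0 (by omega)).smul _, ?_⟩
  rw [← hPΩ.2.2, hPpow (2 * R) le_rfl, ← hXe 0 (by omega), ← exp_nsmul, Nat.cast_smul_eq_nsmul]

/-- Any finite product of exponentials of skew derivations is one exponential. -/
theorem list_prod_exp_lie {br : V →L[ℝ] V →L[ℝ] V} (l : List (V →L[ℝ] V))
    (hl : ∀ Y ∈ l, InLie br Y) : ∃ X, InLie br X ∧ (l.map exp).prod = exp X := by
  induction l with
  | nil =>
    refine ⟨0, ⟨?_, ?_⟩, by simp⟩
    · intro x y; simp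
    · simp [adj]
  | cons Y l ih =>
    obtain ⟨X, hX, hXe⟩ := ih (fun Z hZ => hl Z (List.mem_cons_of_mem _ hZ))
    obtain ⟨X', hX', hX'e⟩ := mul_exp_lie (hl Y (List.mem_cons_self ..)) hX
    exact ⟨X', hX', by rw [List.map_cons, List.prod_cons, hXe, hX'e]⟩

end Compact

end TwoExp
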