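import Pool.Agent.TwoExp.Graded

/-!
# A stationary sequence of bounded energy cannot escape to infinity
-/

namespace TwoExp

open NormedSpace Filter Topology
open scoped RealInnerProductSpace

section Escape

variable {V : Type*} [NormedAddCommGroup V] [InnerProductSpace ℝ V] [FiniteDimensional ℝ V]

theorem escape {n : ℕ} (hn : Module.finrank ℝ V = n) {br : V →L[ℝ] V →L[ℝ] V}
    (hL : IsLie br) (hN : Nondeg br) (b : ℕ → OrthonormalBasis (Fin n) ℝ V)
    (σ : ℕ → Fin n → ℝ) (hpos : ∀ m i, 0 < σ m i) (hprod : ∀ m, ∏ i, σ m i = 1) (C : ℝ)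
    (hF : ∀ m, ∑ i, ∑ j, ∑ k, (σ m k / (σ m i * σ m j)) ^ 2 * (sc br (b m) i j k) ^ 2 ≤ C)
    (hstat : ∀ m X, ∑ i, (σ m i) ^ 2 * ⟪b m i, br X (b m i)⟫ = 0) :
    ¬ Tendsto (fun m => ∑ i, (σ m i) ^ 2) atTop atTop := by
  intro hinf
  rcases Nat.eq_zero_or_pos n with h0 | h0
  · subst h0
    simp only [Finset.univ_eq_empty, Finset.sum_empty] at hinf
    exact (not_tendsto_const_atTop _ _) hinf
  have hne : (Finset.univ : Finset (Fin n)).Nonempty := ⟨⟨0, h0⟩, Finset.mem_univ _⟩
  have hn0 : (0 : ℝ) < n := by exact_mod_cast h0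
  have hn1 : (1 : ℝ) ≤ n := by exact_mod_cast h0
  set M : ℕ → ℝ := fun m => Finset.univ.sup' hne (fun i => Real.log (σ m i)) with hM
  have hMle : ∀ m i, Real.log (σ m i) ≤ M m := fun m i =>
    Finset.le_sup' (fun i => Real.log (σ m i)) (Finset.mem_univ i)
  have hMex : ∀ m, ∃ i, Real.log (σ m i) = M m := fun m => by
    obtain ⟨i, _, hi⟩ := Finset.exists_mem_eq_sup' hne (fun i => Real.log (σ m i))
    exact ⟨i, hi.symm⟩
  have hσexp : ∀ m i, σ m i ^ 2 = Real.exp (2 * Real.log (σ m i)) := fun m i => by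
    rw [two_mul, Real.exp_add, Real.exp_log (hpos m i)]
    ring
  have hsumle : ∀ m, ∑ i, (σ m i) ^ 2 ≤ n * Real.exp (2 * M m) := by
    intro m
    calc ∑ i, (σ m i) ^ 2 ≤ ∑ _i : Fin n, Real.exp (2 * M m) := by
          refine Finset.sum_le_sum fun i _ => ?_
          rw [hσexp]
          exact Real.exp_le_exp.mpr (by linarith [hMle m i])
      _ = n * Real.exp (2 * M m) := by simp
  have hsumge : ∀ m, Real.exp (2 * M m) ≤ ∑ i, (σ m i) ^ 2 := by
    intro m
    obtain ⟨i, hi⟩ := hMex m
    rw [← hi, ← hσexp]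
    exact Finset.single_le_sum (f := fun i => (σ m i) ^ 2) (fun i _ => sq_nonneg _)
      (Finset.mem_univ i)
  have hsumpos : ∀ m, 0 < ∑ i, (σ m i) ^ 2 := fun m =>
    lt_of_lt_of_le (Real.exp_pos _) (hsumge m)
  have hMinf : Tendsto M atTop atTop := by
    rw [tendsto_atTop]
    intro R
    filter_upwards [hinf.eventually_gt_atTop (n * Real.exp (2 * R))] with m hm
    by_contra hlt
    push Not at hlt
    have h1 := hsumle m
    have h2 : Real.exp (2 * M m) ≤ Real.exp (2 * R) := Real.exp_le_exp.mpr (by linarith)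
    nlinarith
  have hlogsum : ∀ m, ∑ i, Real.log (σ m i) = 0 := by
    intro m
    rw [← Real.log_prod (fun i _ => (hpos m i).ne'), hprod, Real.log_one]
  set δ : ℕ → Fin n → ℝ := fun m i => Real.log (σ m i) / M m with hδ
  set w : ℕ → Fin n → ℝ := fun m i => (σ m i) ^ 2 / ∑ j, (σ m j) ^ 2 with hw
  -- compactness
  set K : Set ((Fin n → V) × (Fin n → ℝ) × (Fin n → ℝ)) :=
    (Set.pi Set.univ fun _ => Metric.closedBall (0 : V) 1) ×ˢ
      ((Set.pi Set.univ fun _ => Set.Icc (-(n : ℝ)) 1) ×ˢ
        (Set.pi Set.univ fun _ => Set.Icc (0 : ℝ) 1)) with hK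
  have hKc : IsCompact K := by
    refine IsCompact.prod (isCompact_univ_pi fun _ => isCompact_closedBall _ _) ?_
    exact IsCompact.prod (isCompact_univ_pi fun _ => isCompact_Icc)
      (isCompact_univ_pi fun _ => isCompact_Icc)
  have hmem : ∀ᶠ m in atTop, ((fun i => b m i), δ m, w m) ∈ K := by
    filter_upwards [hMinf.eventually_ge_atTop 1] with m hm
    have hM0 : 0 < M m := by linarith
    refine ⟨?_, ?_, ?_⟩
    · intro i _
      simp [(b m).orthonormal.1 i]
    · intro i _
      have hle : ∀ j, δ m j ≤ 1 := fun j => by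
        rw [hδ]
        simp only
        rw [div_le_one hM0]
        exact hMle m j
      have hsum : ∑ j, δ m j = 0 := by
        rw [hδ]
        simp only
        rw [← Finset.sum_div, hlogsum, zero_div]
      refine ⟨?_, hle i⟩
      have h1 : δ m i = -∑ j ∈ Finset.univ.erase i, δ m j := by
        rw [← Finset.add_sum_erase Finset.univ (δ m) (Finset.mem_univ i)] at hsum
        linarith
      change -(n : ℝ) ≤ δ m i
      rw [h1]
      have h2 : ∑ j ∈ Finset.univ.erase i, δ m j ≤ ∑ _j ∈ Finset.univ.erase i, (1 : ℝ) :=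
        Finset.sum_le_sum fun j _ => hle j
      have h3 : ∑ _j ∈ Finset.univ.erase i, (1 : ℝ) ≤ n := by
        rw [Finset.sum_const, nsmul_eq_mul, mul_one]
        have : (Finset.univ.erase i).card ≤ n := by
          refine (Finset.card_le_card (Finset.erase_subset _ _)).trans ?_
          simp
        exact_mod_cast this
      linarith
    · intro i _
      refine ⟨by positivity, ?_⟩
      rw [hw]
      simp only
      rw [div_le_one (hsumpos m)]
      exact Finset.single_le_sum (f := fun i => (σ m i) ^ 2) (fun i _ => sq_nonneg _)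
        (Finset.mem_univ i)
  obtain ⟨⟨b', d, w'⟩, -, φ, hφ, hlim⟩ := hKc.tendsto_subseq' hmem.frequently
  have hφt : Tendsto φ atTop atTop := hφ.tendsto_atTop
  have hb' : ∀ i, Tendsto (fun m => b (φ m) i) atTop (𝓝 (b' i)) := fun i => by
    have h1 := (continuous_fst.tendsto _).comp hlim
    exact ((continuous_apply i).tendsto _).comp h1
  have hd : ∀ i, Tendsto (fun m => δ (φ m) i) atTop (𝓝 (d i)) := fun i => by
    have h1 := ((continuous_fst.comp continuous_snd).tendsto _).comp hlim
    exact ((continuous_apply i).tendsto _).comp h1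
  have hw' : ∀ i, Tendsto (fun m => w (φ m) i) atTop (𝓝 (w' i)) := fun i => by
    have h1 := ((continuous_snd.comp continuous_snd).tendsto _).comp hlim
    exact ((continuous_apply i).tendsto _).comp h1
  have hMφ : Tendsto (fun m => M (φ m)) atTop atTop := hMinf.comp hφt
  -- orthonormality of the limit
  have hon : Orthonormal ℝ b' := by
    rw [orthonormal_iff_ite]
    intro i j
    have h1 : Tendsto (fun m => ⟪b (φ m) i, b (φ m) j⟫) atTop (𝓝 ⟪b' i, b' j⟫) :=
      (hb' i).inner (hb' j)
    have h2 : (fun m => ⟪b (φ m) i, b (φ m) j⟫) = fun _ => if i = j then (1 : ℝ) else 0 := by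
      funext m
      exact orthonormal_iff_ite.mp (b (φ m)).orthonormal i j
    rw [h2] at h1
    exact tendsto_nhds_unique h1 tendsto_const_nhds
  have : Nonempty (Fin n) := ⟨⟨0, h0⟩⟩
  obtain ⟨B, hB⟩ := exists_onb hon (by rw [Fintype.card_fin, hn])
  have hsumd : ∑ i, d i = 0 := by
    have h1 : Tendsto (fun m => ∑ i, δ (φ m) i) atTop (𝓝 (∑ i, d i)) :=
      tendsto_finsetSum _ fun i _ => hd i
    have h2 : (fun m => ∑ i, δ (φ m) i) = fun _ => 0 := by
      funext m
      rw [hδ]
      simp only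
      rw [← Finset.sum_div, hlogsum, zero_div]
    rw [h2] at h1
    exact tendsto_nhds_unique h1 tendsto_const_nhds
  have hsumw : ∑ i, w' i = 1 := by
    have h1 : Tendsto (fun m => ∑ i, w (φ m) i) atTop (𝓝 (∑ i, w' i)) :=
      tendsto_finsetSum _ fun i _ => hw' i
    have h2 : (fun m => ∑ i, w (φ m) i) = fun _ => 1 := by
      funext m
      rw [hw]
      simp only
      rw [← Finset.sum_div, div_self (hsumpos _).ne']
    rw [h2] at h1
    exact tendsto_nhds_unique h1 tendsto_const_nhds
  -- exponentially small quantities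
  have hexp0 : ∀ η : ℝ, 0 < η → Tendsto (fun m => Real.exp (-(2 * M (φ m) * η))) atTop (𝓝 0) := by
    intro η hη
    apply Real.tendsto_exp_atBot.comp
    apply tendsto_neg_atTop_atBot.comp
    exact (hMφ.const_mul_atTop (by norm_num : (0 : ℝ) < 2)).atTop_mul_const hη
  have hw0 : ∀ i, d i < 1 → w' i = 0 := by
    intro i hi
    set c := (1 + d i) / 2 with hc
    have hc1 : c < 1 := by rw [hc]; linarith
    have hdc : d i < c := by rw [hc]; linarith
    have hev : ∀ᶠ m in atTop, w (φ m) i ≤ Real.exp (-(2 * M (φ m) * (1 - c))) := by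
      filter_upwards [(hd i).eventually (gt_mem_nhds hdc), hMφ.eventually_ge_atTop 1] with m hm1 hm2
      have hM0 : 0 < M (φ m) := by linarith
      rw [hw]
      simp only
      rw [div_le_iff₀ (hsumpos _)]
      have h1 : Real.exp (-(2 * M (φ m) * (1 - c))) * Real.exp (2 * M (φ m)) ≤
          Real.exp (-(2 * M (φ m) * (1 - c))) * ∑ j, (σ (φ m) j) ^ 2 := by
        gcongr
        exact hsumge _
      refine le_trans ?_ h1
      rw [← Real.exp_add, hσexp]
      apply Real.exp_le_exp.mpr
      have h2 : Real.log (σ (φ m) i) ≤ c * M (φ m) := by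
        have : δ (φ m) i = Real.log (σ (φ m) i) / M (φ m) := rfl
        rw [this, div_lt_iff₀ hM0] at hm1
        exact hm1.le
      nlinarith
    have h2 : w' i ≤ 0 := le_of_tendsto_of_tendsto (hw' i) (hexp0 (1 - c) (by linarith)) hev
    have h3 : 0 ≤ w' i := ge_of_tendsto' (hw' i) (fun m => by
      rw [hw]; simp only; positivity)
    linarith
  have hsc : ∀ i j k, Tendsto (fun m => sc br (b (φ m)) i j k) atTop (𝓝 (sc br b' i j k)) := by
    intro i j k
    unfold sc
    refine (hb' k).inner ?_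
    have h1 : Tendsto (fun m => br (b (φ m) i)) atTop (𝓝 (br (b' i))) :=
      (br.continuous.tendsto _).comp (hb' i)
    exact tendsto_clm_apply h1 (hb' j)
  have hc0 : ∀ i j k, d i + d j < d k → sc br b' i j k = 0 := by
    intro i j k hijk
    set η := (d k - d i - d j) / 2 with hη
    have hη0 : 0 < η := by rw [hη]; linarith
    have hdd : Tendsto (fun m => δ (φ m) k - δ (φ m) i - δ (φ m) j) atTop
        (𝓝 (d k - d i - d j)) := ((hd k).sub (hd i)).sub (hd j)
    have hev : ∀ᶠ m in atTop, (sc br (b (φ m)) i j k) ^ 2 ≤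
        Real.exp (-(2 * M (φ m) * η)) * C := by
      filter_upwards [hdd.eventually (lt_mem_nhds (by rw [hη]; linarith : η < d k - d i - d j)),
        hMφ.eventually_ge_atTop 1] with m hm1 hm2
      have hM0 : 0 < M (φ m) := by linarith
      have hterm : (σ (φ m) k / (σ (φ m) i * σ (φ m) j)) ^ 2 * (sc br (b (φ m)) i j k) ^ 2 ≤ C := by
        refine le_trans ?_ (hF (φ m))
        have s1 := Finset.single_le_sum
          (f := fun k => (σ (φ m) k / (σ (φ m) i * σ (φ m) j)) ^ 2 * (sc br (b (φ m)) i j k) ^ 2)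
          (fun k _ => by positivity) (Finset.mem_univ k)
        have s2 := Finset.single_le_sum
          (f := fun j => ∑ k, (σ (φ m) k / (σ (φ m) i * σ (φ m) j)) ^ 2 *
            (sc br (b (φ m)) i j k) ^ 2)
          (fun j _ => Finset.sum_nonneg fun k _ => by positivity) (Finset.mem_univ j)
        have s3 := Finset.single_le_sum
          (f := fun i => ∑ j, ∑ k, (σ (φ m) k / (σ (φ m) i * σ (φ m) j)) ^ 2 *
            (sc br (b (φ m)) i j k) ^ 2)
          (fun i _ => Finset.sum_nonneg fun j _ => Finset.sum_nonneg fun k _ => by positivity)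
          (Finset.mem_univ i)
        exact s1.trans (s2.trans s3)
      have hratio : Real.exp (2 * M (φ m) * η) ≤ (σ (φ m) k / (σ (φ m) i * σ (φ m) j)) ^ 2 := by
        have e1 : (σ (φ m) k / (σ (φ m) i * σ (φ m) j)) ^ 2 =
            Real.exp (2 * (Real.log (σ (φ m) k) - Real.log (σ (φ m) i) -
              Real.log (σ (φ m) j))) := by
          rw [mul_sub, mul_sub, Real.exp_sub, Real.exp_sub, ← hσexp, ← hσexp, ← hσexp]
          have h1 := (hpos (φ m) i).ne'
          have h2 := (hpos (φ m) j).ne'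
          field_simp
        rw [e1]
        apply Real.exp_le_exp.mpr
        have hdef : ∀ l, Real.log (σ (φ m) l) = δ (φ m) l * M (φ m) := fun l => by
          have : δ (φ m) l = Real.log (σ (φ m) l) / M (φ m) := rfl
          rw [this, div_mul_cancel₀ _ hM0.ne']
        rw [hdef, hdef, hdef]
        nlinarith
      have hs0 : 0 ≤ (sc br (b (φ m)) i j k) ^ 2 := sq_nonneg _
      have h4 : Real.exp (2 * M (φ m) * η) * (sc br (b (φ m)) i j k) ^ 2 ≤ C :=
        (mul_le_mul_of_nonneg_right hratio hs0).trans hterm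
      have h5 : Real.exp (-(2 * M (φ m) * η)) * Real.exp (2 * M (φ m) * η) = 1 := by
        rw [← Real.exp_add]; simp
      calc (sc br (b (φ m)) i j k) ^ 2
          = Real.exp (-(2 * M (φ m) * η)) *
            (Real.exp (2 * M (φ m) * η) * (sc br (b (φ m)) i j k) ^ 2) := by
            rw [← mul_assoc, h5, one_mul]
        _ ≤ Real.exp (-(2 * M (φ m) * η)) * C := by gcongr
    have h2 : (sc br b' i j k) ^ 2 ≤ 0 * C :=
      le_of_tendsto_of_tendsto ((hsc i j k).pow 2) ((hexp0 η hη0).mul_const C) hev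
    have h3 : (sc br b' i j k) ^ 2 = 0 := le_antisymm (by simpa using h2) (sq_nonneg _)
    exact pow_eq_zero_iff (two_ne_zero) |>.mp h3
  obtain ⟨H, hH⟩ := exists_grading_element hL hN B d hsumd (by rw [hB]; exact hc0)
  rw [hB] at hH
  -- stationarity in the limit
  have hst : ∑ i, w' i * ⟪b' i, br H (b' i)⟫ = 0 := by
    have h1 : Tendsto (fun m => ∑ i, w (φ m) i * ⟪b (φ m) i, br H (b (φ m) i)⟫) atTop
        (𝓝 (∑ i, w' i * ⟪b' i, br H (b' i)⟫)) := by
      refine tendsto_finsetSum _ fun i _ => ?_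
      refine (hw' i).mul ((hb' i).inner ?_)
      exact ((br H).continuous.tendsto _).comp (hb' i)
    have h2 : (fun m => ∑ i, w (φ m) i * ⟪b (φ m) i, br H (b (φ m) i)⟫) = fun _ => 0 := by
      funext m
      have h3 : ∀ i, w (φ m) i * ⟪b (φ m) i, br H (b (φ m) i)⟫ =
          ((σ (φ m) i) ^ 2 * ⟪b (φ m) i, br H (b (φ m) i)⟫) / ∑ j, (σ (φ m) j) ^ 2 := by
        intro i
        rw [hw]
        simp only
        ring
      simp_rw [h3]
      rw [← Finset.sum_div, hstat, zero_div]
    rw [h2] at h1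
    exact tendsto_nhds_unique h1 tendsto_const_nhds
  have hfin : ∑ i, w' i * ⟪b' i, br H (b' i)⟫ = 1 := by
    rw [← hsumw]
    refine Finset.sum_congr rfl fun i _ => ?_
    rw [hH]
    have hdle : d i ≤ 1 := by
      refine le_of_tendsto (hd i) ?_
      filter_upwards [hMφ.eventually_ge_atTop 1] with m hm
      have hM0 : 0 < M (φ m) := by linarith
      have : δ (φ m) i = Real.log (σ (φ m) i) / M (φ m) := rfl
      rw [this, div_le_one hM0]
      exact hMle _ i
    rcases lt_or_eq_of_le hdle with h | h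
    · rw [hw0 i h]; simp
    · rw [h, mul_one]
  rw [hst] at hfin
  norm_num at hfin

end Escape

end TwoExp
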