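import Pool.Agent.TwoExp.Basic

/-!
# Hilbert–Schmidt sums, singular value decomposition, energy of a bracket
-/

namespace TwoExp

open NormedSpace Filter Topology
open scoped RealInnerProductSpace

attribute [local instance] instRatAlg

section Euclid

variable {V : Type*} [NormedAddCommGroup V] [InnerProductSpace ℝ V] [FiniteDimensional ℝ V]
variable {ι : Type*} [Fintype ι]

omit [FiniteDimensional ℝ V] in
/-- An orthonormal family indexed by a type of the right cardinality is a basis. -/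
theorem exists_onb {v : ι → V} (hv : Orthonormal ℝ v) (hcard : Fintype.card ι = Module.finrank ℝ V)
    [Nonempty ι] : ∃ b : OrthonormalBasis ι ℝ V, ⇑b = v := by
  refine ⟨OrthonormalBasis.mk hv ?_, OrthonormalBasis.coe_mk hv _⟩
  rw [hv.linearIndependent.span_eq_top_of_card_eq_finrank hcard]

/-- The Hilbert–Schmidt norm does not depend on the basis. -/
theorem hs_indep (T : V →L[ℝ] V) (b b' : OrthonormalBasis ι ℝ V) :
    ∑ i, ‖T (b i)‖ ^ 2 = ∑ i, ‖T (b' i)‖ ^ 2 := by
  have key : ∀ c c' : OrthonormalBasis ι ℝ V,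
      ∑ i, ‖T (c i)‖ ^ 2 = ∑ j, ‖(ContinuousLinearMap.adjoint T) (c' j)‖ ^ 2 := by
    intro c c'
    have h1 : ∀ i, ‖T (c i)‖ ^ 2 = ∑ j, ⟪c' j, T (c i)⟫ ^ 2 := fun i =>
      (c'.sum_sq_inner_right (T (c i))).symm
    have h2 : ∀ j, ‖(ContinuousLinearMap.adjoint T) (c' j)‖ ^ 2 = ∑ i, ⟪c' j, T (c i)⟫ ^ 2 := by
      intro j
      rw [← c.sum_sq_inner_left]
      refine Finset.sum_congr rfl fun i _ => ?_
      rw [ContinuousLinearMap.adjoint_inner_left]
    simp_rw [h1, h2]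
    rw [Finset.sum_comm]
  rw [key b b', key b' b']

/-- Basis independence of the energy of a bilinear map. -/
theorem energy_indep (T : V →L[ℝ] V →L[ℝ] V) (b b' : OrthonormalBasis ι ℝ V) :
    ∑ i, ∑ j, ‖T (b i) (b j)‖ ^ 2 = ∑ i, ∑ j, ‖T (b' i) (b' j)‖ ^ 2 := by
  have h1 : ∀ i, ∑ j, ‖T (b i) (b j)‖ ^ 2 = ∑ j, ‖T (b i) (b' j)‖ ^ 2 := fun i =>
    hs_indep (T (b i)) b b'
  simp_rw [h1]
  rw [Finset.sum_comm]
  have h2 : ∀ j, ∑ i, ‖T (b i) (b' j)‖ ^ 2 = ∑ i, ‖T (b' i) (b' j)‖ ^ 2 := fun j =>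
    hs_indep (T.flip (b' j)) b b'
  simp_rw [h2]
  rw [Finset.sum_comm]

/-- Structure constants in an orthonormal basis. -/
noncomputable def sc (br : V →L[ℝ] V →L[ℝ] V) (b : ι → V) (i j k : ι) : ℝ :=
  ⟪b k, br (b i) (b j)⟫

omit [FiniteDimensional ℝ V] in
theorem energy_eq_sc (br : V →L[ℝ] V →L[ℝ] V) (b : OrthonormalBasis ι ℝ V) :
    ∑ i, ∑ j, ‖br (b i) (b j)‖ ^ 2 = ∑ i, ∑ j, ∑ k, (sc br b i j k) ^ 2 := by
  refine Finset.sum_congr rfl fun i _ => Finset.sum_congr rfl fun j _ => ?_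
  exact (b.sum_sq_inner_right _).symm

/-- Singular value decomposition. -/
theorem exists_svd {n : ℕ} (hn : Module.finrank ℝ V = n) (g : V →L[ℝ] V)
    (hdet : |LinearMap.det (g : V →ₗ[ℝ] V)| = 1) :
    ∃ (b u : OrthonormalBasis (Fin n) ℝ V) (σ : Fin n → ℝ), (∀ i, 0 < σ i) ∧ (∏ i, σ i = 1) ∧
      (∀ i, g (b i) = σ i • u i) ∧
      (∀ i, (ContinuousLinearMap.adjoint g) (g (b i)) = (σ i ^ 2) • b i) := by
  set S : V →L[ℝ] V := (ContinuousLinearMap.adjoint g) ∘L g with hS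
  have hsymm : (S : V →ₗ[ℝ] V).IsSymmetric := by
    intro x y
    simp only [hS, ContinuousLinearMap.coe_coe, ContinuousLinearMap.comp_apply]
    rw [ContinuousLinearMap.adjoint_inner_left, ContinuousLinearMap.adjoint_inner_right]
  set b := hsymm.eigenvectorBasis hn with hb
  set lam := hsymm.eigenvalues hn with hlam
  have hSb : ∀ i, S (b i) = lam i • b i := fun i => hsymm.apply_eigenvectorBasis hn i
  have hinner : ∀ i j, ⟪g (b i), g (b j)⟫ = lam i * ⟪b i, b j⟫ := by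
    intro i j
    have h1 : ⟪g (b i), g (b j)⟫ = ⟪S (b i), b j⟫ := by
      simp only [hS, ContinuousLinearMap.comp_apply]
      rw [ContinuousLinearMap.adjoint_inner_left]
    rw [h1, hSb, real_inner_smul_left]
  have hdet0 : LinearMap.det (g : V →ₗ[ℝ] V) ≠ 0 := by
    intro h
    rw [h] at hdet
    simp at hdet
  have hginj : ∀ x, g x = 0 → x = 0 := by
    intro x hx
    have hu : IsUnit (g : V →ₗ[ℝ] V) :=
      (LinearMap.isUnit_iff_isUnit_det _).mpr (isUnit_iff_ne_zero.mpr hdet0)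
    have hinj : Function.Injective (g : V →ₗ[ℝ] V) :=
      ((Module.End.isUnit_iff _).mp hu).injective
    apply hinj
    simpa using hx
  have hbn : ∀ i, ⟪b i, b i⟫ = 1 := fun i => by
    rw [real_inner_self_eq_norm_sq, b.orthonormal.1 i]; norm_num
  have hlampos : ∀ i, 0 < lam i := by
    intro i
    have h1 := hinner i i
    rw [hbn, mul_one, real_inner_self_eq_norm_sq] at h1
    rw [← h1]
    have : g (b i) ≠ 0 := fun h => by
      have h2 := hginj _ h
      have h3 := b.orthonormal.1 i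
      rw [h2, norm_zero] at h3
      norm_num at h3
    positivity
  set σ : Fin n → ℝ := fun i => Real.sqrt (lam i) with hσ
  have hσpos : ∀ i, 0 < σ i := fun i => Real.sqrt_pos.mpr (hlampos i)
  have hσsq : ∀ i, σ i ^ 2 = lam i := fun i => Real.sq_sqrt (hlampos i).le
  have hprodlam : ∏ i, lam i = 1 := by
    have h1 : LinearMap.det (S : V →ₗ[ℝ] V) = ∏ i, lam i := by
      have := hsymm.det_eq_prod_eigenvalues hn
      simpa using this
    have h2 := ContinuousLinearMap.normDet_sq (𝕜 := ℝ) g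
    have h3 : LinearMap.normDet (g : V →ₗ[ℝ] V) = 1 := by
      rw [LinearMap.normDet_eq_abs_det, hdet]
    rw [← h1]
    have h4 : LinearMap.det (S : V →ₗ[ℝ] V) = (S).det := rfl
    rw [h4, hS, ← h2, h3]
    norm_num
  have hprod : ∏ i, σ i = 1 := by
    have h1 : (∏ i, σ i) ^ 2 = 1 := by
      rw [← Finset.prod_pow, ← hprodlam]
      exact Finset.prod_congr rfl fun i _ => hσsq i
    have h2 : 0 < ∏ i, σ i := Finset.prod_pos fun i _ => hσpos i
    nlinarith
  -- the left singular vectors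
  set v : Fin n → V := fun i => (σ i)⁻¹ • g (b i) with hv
  have hvon : Orthonormal ℝ v := by
    rw [orthonormal_iff_ite]
    intro i j
    simp only [hv, real_inner_smul_left, real_inner_smul_right]
    rw [hinner]
    by_cases hij : i = j
    · subst hij
      rw [hbn, if_pos rfl, ← hσsq]
      have := (hσpos i).ne'
      field_simp
    · rw [if_neg hij, b.orthonormal.2 hij]
      simp
  rcases Nat.eq_zero_or_pos n with h0 | h0
  · subst h0
    exact ⟨b, b, σ, hσpos, hprod, fun i => i.elim0, fun i => i.elim0⟩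
  · have : Nonempty (Fin n) := ⟨⟨0, h0⟩⟩
    obtain ⟨u, hu⟩ := exists_onb hvon (by rw [Fintype.card_fin, hn])
    refine ⟨b, u, σ, hσpos, hprod, fun i => ?_, fun i => ?_⟩
    · rw [hu, hv]
      simp only [smul_smul]
      rw [mul_inv_cancel₀ (hσpos i).ne', one_smul]
    · have := hSb i
      simp only [hS, ContinuousLinearMap.comp_apply] at this
      rw [this, hσsq]

/-- The inverse of an operator of nonzero determinant. -/
theorem isUnit_of_det {g : V →L[ℝ] V} (hdet : LinearMap.det (g : V →ₗ[ℝ] V) ≠ 0) : IsUnit g := by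
  have hu : IsUnit (g : V →ₗ[ℝ] V) :=
    (LinearMap.isUnit_iff_isUnit_det _).mpr (isUnit_iff_ne_zero.mpr hdet)
  obtain ⟨u, hu⟩ := hu
  refine ⟨⟨g, LinearMap.toContinuousLinearMap (↑u⁻¹ : V →ₗ[ℝ] V), ?_, ?_⟩, rfl⟩
  · ext x
    have h1 : (g : V →ₗ[ℝ] V) ((↑u⁻¹ : V →ₗ[ℝ] V) x) = x := by
      rw [← hu]
      exact congrArg (fun f : V →ₗ[ℝ] V => f x) (u.mul_inv)
    exact h1
  · ext x
    have h1 : (↑u⁻¹ : V →ₗ[ℝ] V) ((g : V →ₗ[ℝ] V) x) = x := by
      rw [← hu]
      exact congrArg (fun f : V →ₗ[ℝ] V => f x) (u.inv_mul)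
    exact h1

/-- Transport of a bracket: `(x, y) ↦ g [h x, h y]`. -/
noncomputable def tr (br : V →L[ℝ] V →L[ℝ] V) (g h : V →L[ℝ] V) : V →L[ℝ] V →L[ℝ] V :=
  ((ContinuousLinearMap.compL ℝ V V V g) ∘L ((ContinuousLinearMap.compL ℝ V V V).flip h)) ∘L
    (br ∘L h)

omit [FiniteDimensional ℝ V] in
@[simp] theorem tr_apply (br : V →L[ℝ] V →L[ℝ] V) (g h : V →L[ℝ] V) (x y : V) :
    tr br g h x y = g (br (h x) (h y)) := by
  simp [tr]

/-- Energy of the bracket transported by an operator with given singular value decomposition. -/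
theorem energy_svd {n : ℕ} (br : V →L[ℝ] V →L[ℝ] V) (g h : V →L[ℝ] V)
    (hgh : g * h = 1) (hhg : h * g = 1)
    (b u e : OrthonormalBasis (Fin n) ℝ V) (σ : Fin n → ℝ) (hσ : ∀ i, 0 < σ i)
    (hg : ∀ i, g (b i) = σ i • u i) :
    ∑ i, ∑ j, ‖tr br g h (e i) (e j)‖ ^ 2 =
      ∑ i, ∑ j, ∑ k, (σ k / (σ i * σ j)) ^ 2 * (sc br b i j k) ^ 2 := by
  rw [energy_indep (tr br g h) e u]
  refine Finset.sum_congr rfl fun i _ => Finset.sum_congr rfl fun j _ => ?_
  have hh : ∀ i, h (u i) = (σ i)⁻¹ • b i := by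
    intro i
    have h1 : h (g (b i)) = b i := by
      have := congrArg (fun f : V →L[ℝ] V => f (b i)) hhg
      simpa using this
    rw [hg, map_smul] at h1
    rw [← h1, smul_smul, inv_mul_cancel₀ (hσ i).ne', one_smul]
  have hgv : ∀ v, ‖g v‖ ^ 2 = ∑ k, (σ k) ^ 2 * ⟪b k, v⟫ ^ 2 := by
    intro v
    have h1 : g v = ∑ k, (⟪b k, v⟫ * σ k) • u k := by
      conv_lhs => rw [← b.sum_repr v]
      rw [map_sum]
      refine Finset.sum_congr rfl fun k _ => ?_
      rw [map_smul, hg, smul_smul, b.repr_apply_apply]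
    rw [← u.sum_sq_inner_right]
    refine Finset.sum_congr rfl fun k _ => ?_
    rw [h1, inner_sum]
    have : ∀ l, ⟪u k, (⟪b l, v⟫ * σ l) • u l⟫ = if k = l then ⟪b l, v⟫ * σ l else 0 := by
      intro l
      rw [real_inner_smul_right, orthonormal_iff_ite.mp u.orthonormal k l]
      split_ifs <;> simp
    simp_rw [this]
    rw [Finset.sum_ite_eq Finset.univ k]
    simp only [Finset.mem_univ, if_true]
    ring
  have hbb : br (h (u i)) (h (u j)) = ((σ i)⁻¹ * (σ j)⁻¹) • br (b i) (b j) := by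
    rw [hh, hh]
    simp only [map_smul, smul_apply, smul_smul]
    rw [mul_comm]
  rw [tr_apply, hbb, hgv]
  refine Finset.sum_congr rfl fun k _ => ?_
  simp only [real_inner_smul_right, sc]
  have hi := (hσ i).ne'
  have hj := (hσ j).ne'
  field_simp

end Euclid

end TwoExp
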