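import Pool.Agent.TwoExp.Euclid

/-!
# The graded limit of a bracket along a one-parameter degeneration
-/

namespace TwoExp

open NormedSpace Filter Topology
open scoped RealInnerProductSpace

attribute [local instance] instRatAlg

section Transport

variable {V : Type*} [NormedAddCommGroup V] [NormedSpace ℝ V]

theorem apply_of_mul_eq_one {g h : V →L[ℝ] V} (hgh : g * h = 1) (x : V) : g (h x) = x := by
  have := congrArg (fun f : V →L[ℝ] V => f x) hgh
  simpa using this

end Transport

section TransportE

variable {V : Type*} [NormedAddCommGroup V] [InnerProductSpace ℝ V] [FiniteDimensional ℝ V]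

omit [FiniteDimensional ℝ V] in
theorem IsLie.tr {br : V →L[ℝ] V →L[ℝ] V} (hL : IsLie br) {g h : V →L[ℝ] V}
    (hhg : h * g = 1) : IsLie (tr br g h) where
  alt x := by rw [tr_apply, hL.alt, map_zero]
  jac x y z := by
    simp only [tr_apply, apply_of_mul_eq_one hhg]
    rw [hL.jac, map_add]

omit [FiniteDimensional ℝ V] in
theorem killing_tr (br : V →L[ℝ] V →L[ℝ] V) {g h : V →L[ℝ] V}
    (hhg : h * g = 1) (x y : V) :
    killing (tr br g h) x y = killing br (h x) (h y) := by
  unfold killing
  have e1 : ((tr br g h x : V →L[ℝ] V) : V →ₗ[ℝ] V) ∘ₗ ((tr br g h y : V →L[ℝ] V) : V →ₗ[ℝ] V) =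
      (g : V →ₗ[ℝ] V) * (((br (h x) : V →L[ℝ] V) : V →ₗ[ℝ] V) ∘ₗ
        ((br (h y) : V →L[ℝ] V) : V →ₗ[ℝ] V) ∘ₗ (h : V →ₗ[ℝ] V)) := by
    ext z
    simp only [LinearMap.comp_apply, ContinuousLinearMap.coe_coe, tr_apply, Module.End.mul_apply,
      apply_of_mul_eq_one hhg]
  rw [e1, LinearMap.trace_mul_comm]
  congr 1
  ext z
  simp only [LinearMap.comp_apply, ContinuousLinearMap.coe_coe, Module.End.mul_apply,
    apply_of_mul_eq_one hhg]

theorem Nondeg.tr {br : V →L[ℝ] V →L[ℝ] V} (hN : Nondeg br) {g h : V →L[ℝ] V}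
    (hgh : g * h = 1) (hhg : h * g = 1) : Nondeg (tr br g h) := by
  intro x hx
  have h1 : h x = 0 := by
    apply hN
    intro y
    have := hx (g y)
    rwa [killing_tr br hhg, apply_of_mul_eq_one hhg] at this
  have := apply_of_mul_eq_one hgh x
  rw [h1, map_zero] at this
  exact this.symm

omit [FiniteDimensional ℝ V] in
theorem killing_eq_sum {ι : Type*} [Fintype ι] (br : V →L[ℝ] V →L[ℝ] V)
    (e : OrthonormalBasis ι ℝ V) (x y : V) :
    killing br x y = ∑ i, ⟪e i, br x (br y (e i))⟫ := by
  unfold killing
  rw [LinearMap.trace_eq_sum_inner _ e]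
  rfl

theorem killing_continuous (x y : V) :
    Continuous (fun T : V →L[ℝ] V →L[ℝ] V => killing T x y) := by
  have h : (fun T : V →L[ℝ] V →L[ℝ] V => killing T x y) =
      fun T => ∑ i, ⟪stdOrthonormalBasis ℝ V i, T x (T y (stdOrthonormalBasis ℝ V i))⟫ := by
    funext T
    exact killing_eq_sum T _ x y
  rw [h]
  refine continuous_finsetSum _ fun i _ => ?_
  have h1 : Continuous (fun T : V →L[ℝ] V →L[ℝ] V => T x) := by fun_prop
  have h2 : Continuous (fun T : V →L[ℝ] V →L[ℝ] V => T y) := by fun_prop
  exact continuous_const.inner (h1.clm_apply (h2.clm_apply continuous_const))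

omit [FiniteDimensional ℝ V] in
theorem tendsto_clm_apply {E : Type*} [NormedAddCommGroup E] [NormedSpace ℝ E]
    {α : Type*} {l : Filter α} {S : α → V →L[ℝ] E}
    {S' : V →L[ℝ] E} {f : α → V} {y : V} (hS : Tendsto S l (𝓝 S')) (hf : Tendsto f l (𝓝 y)) :
    Tendsto (fun a => S a (f a)) l (𝓝 (S' y)) := by
  have hc : Continuous (fun p : (V →L[ℝ] E) × V => p.1 p.2) :=
    continuous_fst.clm_apply continuous_snd
  exact (hc.tendsto (S', y)).comp (hS.prodMk_nhds hf)

omit [FiniteDimensional ℝ V] in
/-- Limits of Lie brackets are Lie brackets. -/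
theorem IsLie.of_tendsto {α : Type*} {l : Filter α} [l.NeBot] {T : α → V →L[ℝ] V →L[ℝ] V}
    {T' : V →L[ℝ] V →L[ℝ] V} (hT : Tendsto T l (𝓝 T')) (h : ∀ a, IsLie (T a)) : IsLie T' := by
  have hev : ∀ x, Tendsto (fun a => T a x) l (𝓝 (T' x)) := fun x => by
    have hc : Continuous (fun S : V →L[ℝ] V →L[ℝ] V => S x) := by fun_prop
    exact (hc.tendsto T').comp hT
  have hev2 : ∀ x (f : α → V) (y : V), Tendsto f l (𝓝 y) →
      Tendsto (fun a => T a x (f a)) l (𝓝 (T' x y)) := fun x f y hf => tendsto_clm_apply (hev x) hf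
  have hev3 : ∀ (f : α → V) (x y : V), Tendsto f l (𝓝 x) →
      Tendsto (fun a => T a (f a) y) l (𝓝 (T' x y)) := fun f x y hf =>
    tendsto_clm_apply (tendsto_clm_apply hT hf) tendsto_const_nhds
  constructor
  · intro x
    have h1 := hev2 x (fun _ => x) x tendsto_const_nhds
    have h2 : Tendsto (fun a => T a x x) l (𝓝 0) := by
      have : (fun a => T a x x) = fun _ => (0 : V) := by
        funext a; exact (h a).alt x
      rw [this]; exact tendsto_const_nhds
    exact tendsto_nhds_unique h1 h2
  · intro x y z
    have h1 := hev2 x (fun a => T a y z) (T' y z) (hev2 y (fun _ => z) z tendsto_const_nhds)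
    have h2 := hev3 (fun a => T a x y) (T' x y) z (hev2 x (fun _ => y) y tendsto_const_nhds)
    have h3 := hev2 y (fun a => T a x z) (T' x z) (hev2 x (fun _ => z) z tendsto_const_nhds)
    refine tendsto_nhds_unique h1 ?_
    have : (fun a => T a x (T a y z)) = fun a => T a (T a x y) z + T a y (T a x z) := by
      funext a; exact (h a).jac x y z
    rw [this]
    exact h2.add h3

end TransportE

section Diag

variable {V : Type*} [NormedAddCommGroup V] [InnerProductSpace ℝ V] [FiniteDimensional ℝ V]
variable {ι : Type*} [Fintype ι] [DecidableEq ι]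

/-- Diagonal operators. -/
noncomputable def diagOp (b : ι → V) (a : ι → ℝ) : V →L[ℝ] V :=
  ∑ i, a i • (innerSL ℝ (b i)).smulRight (b i)

omit [FiniteDimensional ℝ V] [DecidableEq ι] in
theorem diagOp_apply (b : ι → V) (a : ι → ℝ) (x : V) :
    diagOp b a x = ∑ i, (a i * ⟪b i, x⟫) • b i := by
  simp [diagOp, sum_apply, smul_smul]

omit [FiniteDimensional ℝ V] [DecidableEq ι] in
theorem diagOp_basis (b : OrthonormalBasis ι ℝ V) (a : ι → ℝ) (i : ι) :
    diagOp b a (b i) = a i • b i := by
  classical
  rw [diagOp_apply]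
  have : ∀ j, (a j * ⟪b j, b i⟫) • b j = if j = i then a j • b j else 0 := by
    intro j
    rw [orthonormal_iff_ite.mp b.orthonormal j i]
    split_ifs <;> simp
  simp_rw [this]
  rw [Finset.sum_ite_eq' Finset.univ i]
  simp

omit [FiniteDimensional ℝ V] [DecidableEq ι] in
theorem clm_ext_basis (b : OrthonormalBasis ι ℝ V) {S T : V →L[ℝ] V}
    (h : ∀ i, S (b i) = T (b i)) : S = T := by
  ext x
  rw [← b.sum_repr x, map_sum, map_sum]
  refine Finset.sum_congr rfl fun i _ => ?_
  rw [map_smul, map_smul, h]

omit [FiniteDimensional ℝ V] [DecidableEq ι] in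
theorem bilin_ext_basis (b : OrthonormalBasis ι ℝ V) {S T : V →L[ℝ] V →L[ℝ] V}
    (h : ∀ i j, S (b i) (b j) = T (b i) (b j)) : S = T := by
  ext x y
  have h1 : ∀ i, S (b i) = T (b i) := fun i => clm_ext_basis b (h i)
  rw [← b.sum_repr x, map_sum, map_sum]
  simp only [map_smul, h1]

omit [FiniteDimensional ℝ V] [DecidableEq ι] in
theorem diagOp_mul (b : OrthonormalBasis ι ℝ V) (a a' : ι → ℝ) :
    diagOp b a * diagOp b a' = diagOp b (fun i => a i * a' i) := by
  apply clm_ext_basis b
  intro i
  rw [mul_apply_eq_comp, diagOp_basis, map_smul, diagOp_basis, diagOp_basis, smul_smul, mul_comm]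

omit [FiniteDimensional ℝ V] [DecidableEq ι] in
theorem diagOp_one (b : OrthonormalBasis ι ℝ V) : diagOp b (fun _ => (1 : ℝ)) = 1 := by
  apply clm_ext_basis b
  intro i
  rw [diagOp_basis]
  simp

/-- Rank one structure tensors. -/
noncomputable def tens (b : ι → V) (i j k : ι) : V →L[ℝ] V →L[ℝ] V :=
  (innerSL ℝ (b i)).smulRight ((innerSL ℝ (b j)).smulRight (b k))

omit [FiniteDimensional ℝ V] [Fintype ι] [DecidableEq ι] in
theorem tens_apply (b : ι → V) (i j k : ι) (x y : V) :
    tens b i j k x y = (⟪b i, x⟫ * ⟪b j, y⟫) • b k := by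
  simp [tens, smul_smul]

/-- The bilinear map with given structure constants. -/
noncomputable def ofSc (b : ι → V) (c : ι → ι → ι → ℝ) : V →L[ℝ] V →L[ℝ] V :=
  ∑ i, ∑ j, ∑ k, c i j k • tens b i j k

omit [FiniteDimensional ℝ V] [DecidableEq ι] in
theorem ofSc_basis (b : OrthonormalBasis ι ℝ V) (c : ι → ι → ι → ℝ) (i j : ι) :
    ofSc b c (b i) (b j) = ∑ k, c i j k • b k := by
  classical
  have h1 : ∀ i' j' k, (c i' j' k • tens b i' j' k) (b i) (b j) =
      if i' = i then (if j' = j then c i' j' k • b k else 0) else 0 := by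
    intro i' j' k
    rw [smul_apply, smul_apply, tens_apply, orthonormal_iff_ite.mp b.orthonormal,
      orthonormal_iff_ite.mp b.orthonormal]
    split_ifs <;> simp
  simp only [ofSc, sum_apply, h1]
  have h2 : ∀ i' j', (∑ k, if i' = i then (if j' = j then c i' j' k • b k else 0) else 0) =
      if i' = i then (if j' = j then ∑ k, c i' j' k • b k else 0) else 0 := by
    intro i' j'
    split_ifs <;> simp
  simp only [h2]
  have h3 : ∀ i', (∑ j', if i' = i then (if j' = j then ∑ k, c i' j' k • b k else 0) else 0) =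
      if i' = i then ∑ k, c i' j k • b k else 0 := by
    intro i'
    split_ifs
    · rw [Finset.sum_ite_eq' Finset.univ j]; simp
    · simp
  simp only [h3]
  rw [Finset.sum_ite_eq' Finset.univ i]
  simp

omit [FiniteDimensional ℝ V] [DecidableEq ι] in
theorem br_basis (br : V →L[ℝ] V →L[ℝ] V) (b : OrthonormalBasis ι ℝ V) (i j : ι) :
    br (b i) (b j) = ∑ k, sc br b i j k • b k := by
  conv_lhs => rw [← b.sum_repr (br (b i) (b j))]
  refine Finset.sum_congr rfl fun k _ => ?_
  rw [b.repr_apply_apply]
  rfl

/-- The Gram matrix of the Killing form. -/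
noncomputable def gramK (T : V →L[ℝ] V →L[ℝ] V) (b : ι → V) : Matrix ι ι ℝ :=
  Matrix.of fun i j => killing T (b i) (b j)

omit [DecidableEq ι] in
theorem killing_sum_left (T : V →L[ℝ] V →L[ℝ] V) (b : ι → V) (c : ι → ℝ) (y : V) :
    killing T (∑ i, c i • b i) y = ∑ i, c i * killing T (b i) y := by
  simp only [killing_eq_sum T (stdOrthonormalBasis ℝ V), map_sum, map_smul, sum_apply, smul_apply,
    inner_sum, real_inner_smul_right, Finset.mul_sum]
  rw [Finset.sum_comm]

omit [DecidableEq ι] in
theorem killing_sum_right (T : V →L[ℝ] V →L[ℝ] V) (b : ι → V) (c : ι → ℝ) (x : V) :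
    killing T x (∑ i, c i • b i) = ∑ i, c i * killing T x (b i) := by
  simp only [killing_eq_sum T (stdOrthonormalBasis ℝ V), map_sum, map_smul, sum_apply, smul_apply,
    inner_sum, real_inner_smul_right, Finset.mul_sum]
  rw [Finset.sum_comm]

theorem nondeg_iff_det (T : V →L[ℝ] V →L[ℝ] V) (b : OrthonormalBasis ι ℝ V) :
    Nondeg T ↔ (gramK T b).det ≠ 0 := by
  constructor
  · intro hN hdet
    obtain ⟨v, hv, hvM⟩ := Matrix.exists_vecMul_eq_zero_iff.mpr hdet
    have hx : (∑ i, v i • b i) = 0 := by
      apply hN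
      intro y
      rw [← b.sum_repr y, killing_sum_right]
      apply Finset.sum_eq_zero
      intro j _
      rw [killing_sum_left]
      have : (∑ i, v i * killing T (b i) (b j)) = 0 := by
        have h1 := congrFun hvM j
        simpa [Matrix.vecMul, dotProduct, gramK] using h1
      rw [this, mul_zero]
    apply hv
    funext i
    have h2 := congrArg (fun x => ⟪b i, x⟫) hx
    simp only [inner_zero_right, inner_sum, real_inner_smul_right] at h2
    have h3 : ∀ j, v j * ⟪b i, b j⟫ = if i = j then v j else 0 := by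
      intro j
      rw [orthonormal_iff_ite.mp b.orthonormal i j]
      split_ifs <;> simp
    simp_rw [h3] at h2
    rw [Finset.sum_ite_eq Finset.univ i] at h2
    simpa using h2
  · intro hdet x hx
    set v : ι → ℝ := fun i => b.repr x i with hv
    have hxs : x = ∑ i, v i • b i := (b.sum_repr x).symm
    have hvM : Matrix.vecMul v (gramK T b) = 0 := by
      funext j
      have h1 := hx (b j)
      rw [hxs, killing_sum_left] at h1
      simpa [Matrix.vecMul, dotProduct, gramK] using h1
    have hv0 : v = 0 := by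
      by_contra hne
      exact hdet (Matrix.exists_vecMul_eq_zero_iff.mp ⟨v, hne, hvM⟩)
    rw [hxs, hv0]
    simp

/-- Key algebraic lemma: if the bracket is compatible with the filtration given by the weights
`d` (sum zero), then there is an element `H` acting on the diagonal as `d`. -/
theorem exists_grading_element {br : V →L[ℝ] V →L[ℝ] V} (hL : IsLie br) (hN : Nondeg br)
    (b : OrthonormalBasis ι ℝ V) (d : ι → ℝ) (hd : ∑ i, d i = 0)
    (hc : ∀ i j k, d i + d j < d k → sc br b i j k = 0) :
    ∃ H : V, ∀ i, ⟪b i, br H (b i)⟫ = d i := by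
  -- the degeneration
  set g : ℝ → V →L[ℝ] V := fun s => diagOp b (fun i => Real.exp (s * d i)) with hg
  have hgg : ∀ s, g s * g (-s) = 1 := by
    intro s
    rw [hg]
    simp only
    rw [diagOp_mul, ← diagOp_one b]
    congr 1
    funext i
    rw [← Real.exp_add]
    simp
  have hgg' : ∀ s, g (-s) * g s = 1 := by
    intro s
    have := hgg (-s)
    rwa [neg_neg] at this
  set T : ℝ → V →L[ℝ] V →L[ℝ] V := fun s => tr br (g s) (g (-s)) with hT
  set cinf : ι → ι → ι → ℝ := fun i j k => if d k = d i + d j then sc br b i j k else 0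
    with hcinf
  set Tinf : V →L[ℝ] V →L[ℝ] V := ofSc b cinf with hTinf
  have hTs : ∀ s, T s = ofSc b (fun i j k => Real.exp (s * (d k - d i - d j)) * sc br b i j k) := by
    intro s
    apply bilin_ext_basis b
    intro i j
    rw [ofSc_basis, hT]
    simp only [tr_apply, hg]
    rw [diagOp_basis, diagOp_basis]
    simp only [map_smul, smul_apply]
    rw [br_basis]
    simp only [map_sum, map_smul, diagOp_basis, Finset.smul_sum, smul_smul]
    refine Finset.sum_congr rfl fun k _ => ?_
    congr 1
    have : Real.exp (s * (d k - d i - d j)) =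
        Real.exp (-s * d j) * Real.exp (-s * d i) * Real.exp (s * d k) := by
      rw [← Real.exp_add, ← Real.exp_add]
      congr 1
      ring
    rw [this]
    ring
  have hlim : Tendsto T atTop (𝓝 Tinf) := by
    have hTs' : T = fun s => ofSc b
        (fun i j k => Real.exp (s * (d k - d i - d j)) * sc br b i j k) := funext hTs
    rw [hTs', hTinf]
    unfold ofSc
    refine tendsto_finsetSum _ fun i _ => tendsto_finsetSum _ fun j _ =>
      tendsto_finsetSum _ fun k _ => ?_
    refine Tendsto.smul_const ?_ _
    rw [hcinf]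
    simp only
    rcases lt_trichotomy (d k) (d i + d j) with h | h | h
    · rw [if_neg h.ne]
      have h1 : Tendsto (fun s : ℝ => s * (d k - d i - d j)) atTop atBot := by
        apply Tendsto.atTop_mul_const_of_neg
        · linarith
        · exact tendsto_id
      have h2 := (Real.tendsto_exp_atBot.comp h1).mul_const (sc br b i j k)
      simpa using h2
    · rw [if_pos h]
      have h1 : (fun s : ℝ => Real.exp (s * (d k - d i - d j)) * sc br b i j k) =
          fun _ => sc br b i j k := by
        funext s
        rw [h]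
        simp
      rw [h1]
      exact tendsto_const_nhds
    · rw [if_neg h.ne', hc i j k h]
      simp
  have hLinf : IsLie Tinf := IsLie.of_tendsto hlim (fun s => hL.tr (hgg' s))
  have hdetinf : (gramK Tinf b).det ≠ 0 := by
    have h1 : Tendsto (fun s => (gramK (T s) b).det) atTop (𝓝 (gramK Tinf b).det) := by
      have hcont : Continuous (fun S : V →L[ℝ] V →L[ℝ] V => (gramK S b).det) := by
        apply Continuous.matrix_det
        refine continuous_matrix fun i j => ?_
        exact killing_continuous (b i) (b j)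
      exact (hcont.tendsto Tinf).comp hlim
    have h2 : ∀ s, (gramK (T s) b).det = (gramK br b).det := by
      intro s
      set v : ι → ℝ := fun i => Real.exp (-s * d i) with hv
      have e1 : gramK (T s) b = Matrix.of fun i j => v i *
          (Matrix.of fun i j => v j * gramK br b i j) i j := by
        ext i j
        simp only [gramK, Matrix.of_apply, hT]
        rw [killing_tr br (hgg' s)]
        simp only [hg]
        rw [diagOp_basis, diagOp_basis]
        have k1 := killing_sum_left br (fun _ : Unit => b i) (fun _ => Real.exp (-s * d i))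
          (Real.exp (-s * d j) • b j)
        have k2 := killing_sum_right br (fun _ : Unit => b j) (fun _ => Real.exp (-s * d j)) (b i)
        simp only [Finset.univ_unique, Finset.sum_const, Finset.card_singleton, one_smul] at k1 k2
        rw [k1, k2]
      rw [e1, Matrix.det_mul_column, Matrix.det_mul_row]
      have hprod : ∏ i, v i = 1 := by
        rw [hv, ← Real.exp_sum, ← Finset.mul_sum, hd, mul_zero, Real.exp_zero]
      rw [hprod]
      ring
    have h3 : (gramK Tinf b).det = (gramK br b).det := by
      refine tendsto_nhds_unique h1 ?_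
      simp only [h2]
      exact tendsto_const_nhds
    rw [h3]
    exact (nondeg_iff_det br b).mp hN
  have hNinf : Nondeg Tinf := (nondeg_iff_det Tinf b).mpr hdetinf
  set D : V →L[ℝ] V := diagOp b d with hD
  have hDder : IsDer Tinf D := by
    apply defect_eq_zero
    apply bilin_ext_basis b
    intro i j
    rw [defect_apply, hD, diagOp_basis, diagOp_basis]
    simp only [map_smul, smul_apply, zero_apply]
    rw [hTinf, ofSc_basis]
    simp only [map_sum, map_smul, diagOp_basis, Finset.smul_sum, smul_smul]
    rw [← Finset.sum_sub_distrib, ← Finset.sum_sub_distrib]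
    apply Finset.sum_eq_zero
    intro k _
    rw [← sub_smul, ← sub_smul, hcinf]
    simp only
    split_ifs with h
    · rw [h]
      have : sc br b i j k * (d i + d j) - d i * sc br b i j k - d j * sc br b i j k = 0 := by ring
      rw [this, zero_smul]
    · simp
  obtain ⟨H, hH⟩ := hDder.inner hLinf hNinf
  refine ⟨H, fun i => ?_⟩
  -- `D H = 0`
  have hDH : D H = 0 := by rw [hH]; exact hLinf.alt H
  set h : ι → ℝ := fun i => b.repr H i with hh
  have hHs : H = ∑ i, h i • b i := (b.sum_repr H).symm
  have hhd : ∀ j, h j * d j = 0 := by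
    intro j
    rw [hHs, map_sum] at hDH
    simp only [map_smul, hD, diagOp_basis, smul_smul] at hDH
    have h2 := congrArg (fun x => ⟪b j, x⟫) hDH
    simp only [inner_zero_right, inner_sum, real_inner_smul_right] at h2
    have h3 : ∀ i, h i * d i * ⟪b j, b i⟫ = if j = i then h i * d i else 0 := by
      intro i
      rw [orthonormal_iff_ite.mp b.orthonormal j i]
      split_ifs <;> simp
    simp_rw [h3] at h2
    rw [Finset.sum_ite_eq Finset.univ j] at h2
    simpa using h2
  have e1 : ⟪b i, br H (b i)⟫ = ∑ j, h j * sc br b j i i := by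
    conv_lhs => rw [hHs]
    simp only [map_sum, map_smul, sum_apply, smul_apply, inner_sum, real_inner_smul_right]
    rfl
  have e2 : ⟪b i, Tinf H (b i)⟫ = ∑ j, h j * cinf j i i := by
    conv_lhs => rw [hHs]
    simp only [map_sum, map_smul, sum_apply, smul_apply, inner_sum, real_inner_smul_right]
    refine Finset.sum_congr rfl fun j _ => ?_
    congr 1
    rw [hTinf, ofSc_basis, inner_sum]
    have h3 : ∀ k, ⟪b i, cinf j i k • b k⟫ = if i = k then cinf j i k else 0 := by
      intro k
      rw [real_inner_smul_right, orthonormal_iff_ite.mp b.orthonormal i k]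
      split_ifs <;> simp
    simp_rw [h3]
    rw [Finset.sum_ite_eq Finset.univ i]
    simp
  have e3 : ⟪b i, Tinf H (b i)⟫ = d i := by
    rw [← hH, hD, diagOp_basis, real_inner_smul_right, real_inner_self_eq_norm_sq,
      b.orthonormal.1 i]
    norm_num
  rw [e1, ← e3, e2]
  refine Finset.sum_congr rfl fun j _ => ?_
  rw [hcinf]
  simp only
  by_cases hj : d j = 0
  · rw [if_pos (by rw [hj]; ring)]
  · have : h j = 0 := by
      rcases mul_eq_zero.mp (hhd j) with h1 | h1
      · exact h1
      · exact absurd h1 hj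
    rw [this]
    simp

end Diag

end TwoExp
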