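import Pool.Agent.TwoExp.Escape

/-!
# Existence of a minimal inner product
-/

namespace TwoExp

open NormedSpace Filter Topology
open scoped RealInnerProductSpace

attribute [local instance] instRatAlg

section Minimal

variable {V : Type*} [NormedAddCommGroup V] [InnerProductSpace ℝ V] [FiniteDimensional ℝ V]

omit [FiniteDimensional ℝ V] in
theorem tr_eq_self {br : V →L[ℝ] V →L[ℝ] V} {a a' : V →L[ℝ] V} (haa' : a * a' = 1)
    (h : IsHom br a) : tr br a a' = br := by
  ext x y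
  rw [tr_apply, h, apply_of_mul_eq_one haa', apply_of_mul_eq_one haa']

/-- Automorphisms have determinant `±1`. -/
theorem absdet_of_isHom {br : V →L[ℝ] V →L[ℝ] V} (hN : Nondeg br) {a a' : V →L[ℝ] V}
    (haa' : a * a' = 1) (ha'a : a' * a = 1) (h : IsHom br a) :
    |LinearMap.det (a : V →ₗ[ℝ] V)| = 1 := by
  classical
  have h' : IsHom br a' := h.of_mul_eq_one haa' ha'a
  set e := stdOrthonormalBasis ℝ V
  have hK : ∀ x y, killing br (a x) (a y) = killing br x y := by
    intro x y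
    have := killing_tr br (g := a') (h := a) haa' x y
    rw [tr_eq_self ha'a h'] at this
    exact this.symm
  set P : Matrix _ _ ℝ := LinearMap.toMatrix e.toBasis e.toBasis (a : V →ₗ[ℝ] V) with hP
  have hPa : ∀ i, a (e i) = ∑ k, P k i • e k := by
    intro i
    have h1 := e.toBasis.sum_repr (a (e i))
    rw [← h1]
    refine Finset.sum_congr rfl fun k _ => ?_
    rw [hP, LinearMap.toMatrix_apply]
    simp
  have hG : gramK br e = P.transpose * gramK br e * P := by
    ext i j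
    rw [Matrix.mul_apply]
    simp only [Matrix.mul_apply, Matrix.transpose_apply, gramK, Matrix.of_apply]
    rw [← hK (e i) (e j), hPa i, hPa j, killing_sum_right]
    refine Finset.sum_congr rfl fun k _ => ?_
    rw [killing_sum_left, mul_comm]
  have hdet : (gramK br e).det = P.det * (gramK br e).det * P.det := by
    conv_lhs => rw [hG]
    rw [Matrix.det_mul, Matrix.det_mul, Matrix.det_transpose]
  have hG0 : (gramK br e).det ≠ 0 := (nondeg_iff_det br e).mp hN
  have hP2 : P.det ^ 2 = 1 := by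
    have : (gramK br e).det * (P.det ^ 2) = (gramK br e).det * 1 := by
      rw [mul_one]
      conv_rhs => rw [hdet]
      ring
    exact mul_left_cancel₀ hG0 this
  have hPdet : P.det = LinearMap.det (a : V →ₗ[ℝ] V) := LinearMap.det_toMatrix _ _
  rw [← hPdet]
  exact (pow_eq_one_iff_of_nonneg (abs_nonneg _) two_ne_zero).mp (by rw [sq_abs]; exact hP2)

/-- Hilbert–Schmidt norm squared. -/
noncomputable def hs {ι : Type*} [Fintype ι] (e : ι → V) (g : V →L[ℝ] V) : ℝ :=
  ∑ i, ‖g (e i)‖ ^ 2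

/-- Energy functional. -/
noncomputable def energy {ι : Type*} [Fintype ι] (br : V →L[ℝ] V →L[ℝ] V) (e : ι → V)
    (g : V →L[ℝ] V) : ℝ :=
  ∑ i, ∑ j, ‖tr br g (Ring.inverse g) (e i) (e j)‖ ^ 2

omit [FiniteDimensional ℝ V] in
theorem norm_sq_le_hs {ι : Type*} [Fintype ι] (e : OrthonormalBasis ι ℝ V) (g : V →L[ℝ] V) :
    ‖g‖ ≤ Real.sqrt (hs e g) := by
  refine ContinuousLinearMap.opNorm_le_bound _ (Real.sqrt_nonneg _) fun x => ?_
  have h1 : g x = ∑ i, ⟪e i, x⟫ • g (e i) := by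
    conv_lhs => rw [← e.sum_repr x]
    rw [map_sum]
    refine Finset.sum_congr rfl fun i _ => ?_
    rw [map_smul, e.repr_apply_apply]
  rw [h1]
  calc ‖∑ i, ⟪e i, x⟫ • g (e i)‖ ≤ ∑ i, ‖⟪e i, x⟫ • g (e i)‖ := norm_sum_le _ _
    _ = ∑ i, |⟪e i, x⟫| * ‖g (e i)‖ := by
        refine Finset.sum_congr rfl fun i _ => ?_
        rw [norm_smul, Real.norm_eq_abs]
    _ ≤ Real.sqrt (∑ i, |⟪e i, x⟫| ^ 2) * Real.sqrt (∑ i, ‖g (e i)‖ ^ 2) :=
        Real.sum_mul_le_sqrt_mul_sqrt _ _ _
    _ = Real.sqrt (hs e g) * ‖x‖ := by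
        have : ∑ i, |⟪e i, x⟫| ^ 2 = ‖x‖ ^ 2 := by
          rw [← e.sum_sq_inner_right]
          simp
        rw [this, Real.sqrt_sq (norm_nonneg _), mul_comm]
        rfl

omit [FiniteDimensional ℝ V] in
theorem continuous_hs {ι : Type*} [Fintype ι] (e : ι → V) :
    Continuous (hs e) := by
  unfold hs
  fun_prop

theorem continuousAt_energy {ι : Type*} [Fintype ι] (br : V →L[ℝ] V →L[ℝ] V) (e : ι → V)
    {g : V →L[ℝ] V} (hg : IsUnit g) : ContinuousAt (energy br e) g := by
  obtain ⟨u, rfl⟩ := hg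
  have hinv : ContinuousAt (Ring.inverse : (V →L[ℝ] V) → (V →L[ℝ] V)) (u : V →L[ℝ] V) :=
    NormedRing.inverse_continuousAt u
  have h1 : ∀ i j, ContinuousAt (fun g : V →L[ℝ] V => ‖tr br g (Ring.inverse g) (e i) (e j)‖ ^ 2)
      (u : V →L[ℝ] V) := by
    intro i j
    simp only [tr_apply]
    have a1 : ContinuousAt (fun g : V →L[ℝ] V => (Ring.inverse g) (e i)) (u : V →L[ℝ] V) :=
      hinv.clm_apply continuousAt_const
    have a2 : ContinuousAt (fun g : V →L[ℝ] V => (Ring.inverse g) (e j)) (u : V →L[ℝ] V) :=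
      hinv.clm_apply continuousAt_const
    have a3 : ContinuousAt (fun g : V →L[ℝ] V => br ((Ring.inverse g) (e i)))
        (u : V →L[ℝ] V) := ContinuousAt.clm_apply continuousAt_const a1
    exact ((continuousAt_id.clm_apply (a3.clm_apply a2)).norm).pow 2
  have h2 : energy br e = fun g => ∑ i, ∑ j, ‖tr br g (Ring.inverse g) (e i) (e j)‖ ^ 2 := rfl
  rw [h2]
  exact tendsto_finsetSum _ fun i _ => tendsto_finsetSum _ fun j _ => h1 i j

omit [FiniteDimensional ℝ V] in
/-- The energy is invariant under automorphisms. -/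
theorem energy_mul_hom {ι : Type*} [Fintype ι] (br : V →L[ℝ] V →L[ℝ] V) (e : ι → V)
    {g a a' : V →L[ℝ] V} (hg : IsUnit g) (haa' : a * a' = 1) (ha'a : a' * a = 1)
    (h : IsHom br a) : energy br e (g * a) = energy br e g := by
  obtain ⟨u, rfl⟩ := hg
  have hinv : Ring.inverse ((u : V →L[ℝ] V) * a) = a' * (↑u⁻¹ : V →L[ℝ] V) := by
    set w : (V →L[ℝ] V)ˣ := ⟨(u : V →L[ℝ] V) * a, a' * (↑u⁻¹ : V →L[ℝ] V), by
      rw [mul_assoc, ← mul_assoc a, haa', one_mul, Units.mul_inv], by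
      rw [mul_assoc, ← mul_assoc (↑u⁻¹ : V →L[ℝ] V), Units.inv_mul, one_mul, ha'a]⟩ with hw
    have : ((u : V →L[ℝ] V) * a) = (w : V →L[ℝ] V) := rfl
    rw [this, Ring.inverse_unit]
    rfl
  have h' : IsHom br a' := h.of_mul_eq_one haa' ha'a
  unfold energy
  refine Finset.sum_congr rfl fun i _ => Finset.sum_congr rfl fun j _ => ?_
  rw [hinv, Ring.inverse_unit]
  simp only [tr_apply, mul_apply_eq_comp]
  rw [← h', apply_of_mul_eq_one haa']

/-- Minimizers of the penalised energy. -/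
theorem exists_penalised_min {n : ℕ} (e : OrthonormalBasis (Fin n) ℝ V)
    (br : V →L[ℝ] V →L[ℝ] V) (ε : ℝ) (hε : 0 < ε) :
    ∃ g : V →L[ℝ] V, |LinearMap.det (g : V →ₗ[ℝ] V)| = 1 ∧
      ∀ g' : V →L[ℝ] V, |LinearMap.det (g' : V →ₗ[ℝ] V)| = 1 →
        energy br e g + ε * hs e g ≤ energy br e g' + ε * hs e g' := by
  set G : (V →L[ℝ] V) → ℝ := fun g => energy br e g + ε * hs e g with hG
  have hdetc : Continuous (fun g : V →L[ℝ] V => |LinearMap.det (g : V →ₗ[ℝ] V)|) :=
    (ContinuousLinearMap.continuous_det (𝕜 := ℝ) (E := V)).abs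
  have henergy0 : ∀ g, 0 ≤ energy br e g := fun g =>
    Finset.sum_nonneg fun i _ => Finset.sum_nonneg fun j _ => by positivity
  have hhs0 : ∀ g : V →L[ℝ] V, 0 ≤ hs e g := fun g =>
    Finset.sum_nonneg fun i _ => by positivity
  set R : ℝ := G 1 / ε with hR
  set K : Set (V →L[ℝ] V) := {g | |LinearMap.det (g : V →ₗ[ℝ] V)| = 1 ∧ hs e g ≤ R} with hK
  have h1K : (1 : V →L[ℝ] V) ∈ K := by
    constructor
    · have : ((1 : V →L[ℝ] V) : V →ₗ[ℝ] V) = LinearMap.id := rfl
      rw [this, LinearMap.det_id]; simp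
    · rw [hR, le_div_iff₀ hε, hG]
      simp only
      have := henergy0 1
      linarith [mul_comm ε (hs e (1 : V →L[ℝ] V))]
  have hKc : IsCompact K := by
    apply Metric.isCompact_of_isClosed_isBounded
    · exact (isClosed_eq hdetc continuous_const).inter
        (isClosed_le (continuous_hs e) continuous_const)
    · refine (Metric.isBounded_closedBall (x := (0 : V →L[ℝ] V)) (r := Real.sqrt R)).subset ?_
      intro g hg
      rw [mem_closedBall_zero_iff]
      exact (norm_sq_le_hs e g).trans (Real.sqrt_le_sqrt hg.2)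
  have hunit : ∀ g : V →L[ℝ] V, |LinearMap.det (g : V →ₗ[ℝ] V)| = 1 → IsUnit g := by
    intro g hg
    apply isUnit_of_det
    intro h
    rw [h] at hg
    simp at hg
  have hcont : ContinuousOn G K := by
    intro g hg
    apply ContinuousAt.continuousWithinAt
    exact (continuousAt_energy br e (hunit g hg.1)).add
      (continuousAt_const.mul (continuous_hs e).continuousAt)
  obtain ⟨g, hgK, hgmin⟩ := hKc.exists_isMinOn ⟨1, h1K⟩ hcont
  refine ⟨g, hgK.1, fun g' hg' => ?_⟩
  by_cases hg'K : g' ∈ K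
  · exact hgmin hg'K
  · have h2 : R < hs e g' := by
      by_contra hle
      push Not at hle
      exact hg'K ⟨hg', hle⟩
    have h3 : G g ≤ G 1 := hgmin h1K
    have h4 : G 1 < ε * hs e g' := by
      rw [hR, div_lt_iff₀ hε] at h2
      linarith [mul_comm ε (hs e g')]
    have h5 := henergy0 g'
    change G g ≤ _
    linarith

/-- First order condition at a penalised minimizer. -/
theorem penalised_stationary {n : ℕ} (e : OrthonormalBasis (Fin n) ℝ V)
    {br : V →L[ℝ] V →L[ℝ] V} (hL : IsLie br) (hN : Nondeg br) (ε : ℝ) (hε : 0 < ε)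
    {g : V →L[ℝ] V} (hg : |LinearMap.det (g : V →ₗ[ℝ] V)| = 1)
    (hmin : ∀ g' : V →L[ℝ] V, |LinearMap.det (g' : V →ₗ[ℝ] V)| = 1 →
        energy br e g + ε * hs e g ≤ energy br e g' + ε * hs e g') (X : V) :
    ∑ i, ⟪g (e i), g (br X (e i))⟫ = 0 := by
  have hunit : IsUnit g := by
    apply isUnit_of_det
    intro h
    rw [h] at hg
    simp at hg
  set f : ℝ → ℝ := fun t => hs e (g * exp (t • br X)) with hf
  have hfmin : ∀ t, f 0 ≤ f t := by
    intro t
    have haa' : exp (t • br X) * exp (-(t • br X)) = 1 := exp_mul_exp_neg _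
    have ha'a : exp (-(t • br X)) * exp (t • br X) = 1 := exp_neg_mul_exp _
    have hhom : IsHom br (exp (t • br X)) := ((hL.isDer X).smul t).exp_isHom
    have hd : |LinearMap.det ((g * exp (t • br X) : V →L[ℝ] V) : V →ₗ[ℝ] V)| = 1 := by
      have h1 : ((g * exp (t • br X) : V →L[ℝ] V) : V →ₗ[ℝ] V) =
          (g : V →ₗ[ℝ] V) * ((exp (t • br X) : V →L[ℝ] V) : V →ₗ[ℝ] V) := rfl
      rw [h1, map_mul, abs_mul, hg, absdet_of_isHom hN haa' ha'a hhom, one_mul]
    have h2 := hmin _ hd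
    rw [energy_mul_hom br e hunit haa' ha'a hhom] at h2
    have h3 : ε * hs e g ≤ ε * hs e (g * exp (t • br X)) := by linarith
    have h4 := le_of_mul_le_mul_left h3 hε
    have h5 : f 0 = hs e g := by simp [hf]
    rw [h5]
    exact h4
  have hder : HasDerivAt f (∑ i, 2 * ⟪g (e i), g (br X (e i))⟫) 0 := by
    have h1 : ∀ i, HasDerivAt (fun t : ℝ => ‖(g * exp (t • br X)) (e i)‖ ^ 2)
        (2 * ⟪g (e i), g (br X (e i))⟫) 0 := by
      intro i
      have h2 : HasDerivAt (fun t : ℝ => exp (t • br X) (e i)) (br X (e i)) 0 := by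
        have h3 := (hasDerivAt_exp_smul_const (𝕂 := ℝ) (br X) 0).clm_apply
          (hasDerivAt_const (0 : ℝ) (e i))
        simpa using h3
      have h4 : HasDerivAt (fun t : ℝ => g (exp (t • br X) (e i))) (g (br X (e i))) 0 :=
        (g.hasFDerivAt (x := exp ((0 : ℝ) • br X) (e i))).comp_hasDerivAt 0 h2
      have h5 := h4.norm_sq
      simpa using h5
    have h6 : HasDerivAt (fun t : ℝ => ∑ i, ‖(g * exp (t • br X)) (e i)‖ ^ 2)
        (∑ i, 2 * ⟪g (e i), g (br X (e i))⟫) 0 := HasDerivAt.fun_sum fun i _ => h1 i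
    exact h6
  have hloc : IsLocalMin f 0 := Filter.Eventually.of_forall hfmin
  have h0 := hloc.hasDerivAt_eq_zero hder
  rw [← Finset.mul_sum] at h0
  linarith

/-- Existence of a minimizer of the energy among operators of determinant `±1`. -/
theorem exists_energy_min {n : ℕ} (hn : Module.finrank ℝ V = n)
    (e : OrthonormalBasis (Fin n) ℝ V)
    {br : V →L[ℝ] V →L[ℝ] V} (hL : IsLie br) (hN : Nondeg br) :
    ∃ g : V →L[ℝ] V, |LinearMap.det (g : V →ₗ[ℝ] V)| = 1 ∧
      ∀ g' : V →L[ℝ] V, |LinearMap.det (g' : V →ₗ[ℝ] V)| = 1 →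
        energy br e g ≤ energy br e g' := by
  have hεpos : ∀ m : ℕ, (0 : ℝ) < 1 / ((m : ℝ) + 1) := fun m => by positivity
  choose g hgdet hgmin using fun m : ℕ => exists_penalised_min e br (1 / ((m : ℝ) + 1)) (hεpos m)
  choose b u σ hσpos hσprod hgb hgS using fun m : ℕ => exists_svd hn (g m) (hgdet m)
  have hunit : ∀ g : V →L[ℝ] V, |LinearMap.det (g : V →ₗ[ℝ] V)| = 1 → IsUnit g := by
    intro g hg
    apply isUnit_of_det
    intro h
    rw [h] at hg
    simp at hg
  have hhs0 : ∀ g : V →L[ℝ] V, 0 ≤ hs e g := fun g =>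
    Finset.sum_nonneg fun i _ => by positivity
  have hhs : ∀ m, hs e (g m) = ∑ i, (σ m i) ^ 2 := by
    intro m
    unfold hs
    rw [hs_indep (g m) e (b m)]
    refine Finset.sum_congr rfl fun i _ => ?_
    rw [hgb, norm_smul, (u m).orthonormal.1 i, mul_one, Real.norm_eq_abs, sq_abs]
  have h1det : |LinearMap.det ((1 : V →L[ℝ] V) : V →ₗ[ℝ] V)| = 1 := by
    have : ((1 : V →L[ℝ] V) : V →ₗ[ℝ] V) = LinearMap.id := rfl
    rw [this, LinearMap.det_id]; simp
  set C := energy br e 1 + hs e (1 : V →L[ℝ] V) with hC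
  have henergyC : ∀ m, energy br e (g m) ≤ C := by
    intro m
    have h1 := hgmin m 1 h1det
    have h2 : 1 / ((m : ℝ) + 1) * hs e (1 : V →L[ℝ] V) ≤ 1 * hs e (1 : V →L[ℝ] V) := by
      apply mul_le_mul_of_nonneg_right _ (hhs0 _)
      rw [div_le_one (by positivity)]
      have : (0 : ℝ) ≤ m := Nat.cast_nonneg m
      linarith
    have h3 : 0 ≤ 1 / ((m : ℝ) + 1) * hs e (g m) := mul_nonneg (hεpos m).le (hhs0 _)
    linarith
  have hF : ∀ m, ∑ i, ∑ j, ∑ k, (σ m k / (σ m i * σ m j)) ^ 2 * (sc br (b m) i j k) ^ 2 ≤ C := by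
    intro m
    obtain ⟨w, hw⟩ := hunit (g m) (hgdet m)
    have h1 := energy_svd br (g m) (Ring.inverse (g m))
      (by rw [← hw, Ring.inverse_unit, Units.mul_inv])
      (by rw [← hw, Ring.inverse_unit, Units.inv_mul]) (b m) (u m) e (σ m) (hσpos m) (hgb m)
    rw [← h1]
    exact henergyC m
  have hstat : ∀ m X, ∑ i, (σ m i) ^ 2 * ⟪b m i, br X (b m i)⟫ = 0 := by
    intro m X
    have h1 := penalised_stationary e hL hN _ (hεpos m) (hgdet m) (hgmin m) X
    set A : V →L[ℝ] V := (ContinuousLinearMap.adjoint (g m)) ∘L (g m) ∘L (br X) with hA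
    have h2 : ∑ i, ⟪g m (e i), g m (br X (e i))⟫ = LinearMap.trace ℝ V (A : V →ₗ[ℝ] V) := by
      rw [LinearMap.trace_eq_sum_inner _ e]
      refine Finset.sum_congr rfl fun i _ => ?_
      simp only [hA, ContinuousLinearMap.coe_coe, ContinuousLinearMap.comp_apply]
      rw [ContinuousLinearMap.adjoint_inner_right]
    have h3 : ∑ i, (σ m i) ^ 2 * ⟪b m i, br X (b m i)⟫ =
        LinearMap.trace ℝ V (A : V →ₗ[ℝ] V) := by
      rw [LinearMap.trace_eq_sum_inner _ (b m)]
      refine Finset.sum_congr rfl fun i _ => ?_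
      simp only [hA, ContinuousLinearMap.coe_coe, ContinuousLinearMap.comp_apply]
      rw [ContinuousLinearMap.adjoint_inner_right]
      rw [← ContinuousLinearMap.adjoint_inner_left (g m), hgS, real_inner_smul_left]
    rw [h3, ← h2, h1]
  have hesc := escape hn hL hN b σ hσpos hσprod C hF hstat
  -- frequently bounded
  have hfreq : ∃ R, ∃ᶠ m in atTop, hs e (g m) ≤ R := by
    by_contra hcon
    push Not at hcon
    apply hesc
    rw [tendsto_atTop]
    intro R
    have h1 := hcon R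
    filter_upwards [h1] with m hm
    rw [← hhs]
    exact hm.le
  obtain ⟨R, hR⟩ := hfreq
  have hdetc : Continuous (fun g : V →L[ℝ] V => |LinearMap.det (g : V →ₗ[ℝ] V)|) :=
    (ContinuousLinearMap.continuous_det (𝕜 := ℝ) (E := V)).abs
  set K : Set (V →L[ℝ] V) := {g | |LinearMap.det (g : V →ₗ[ℝ] V)| = 1 ∧ hs e g ≤ R} with hK
  have hKc : IsCompact K := by
    apply Metric.isCompact_of_isClosed_isBounded
    · exact (isClosed_eq hdetc continuous_const).inter
        (isClosed_le (continuous_hs e) continuous_const)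
    · refine (Metric.isBounded_closedBall (x := (0 : V →L[ℝ] V)) (r := Real.sqrt R)).subset ?_
      intro g hg
      rw [mem_closedBall_zero_iff]
      exact (norm_sq_le_hs e g).trans (Real.sqrt_le_sqrt hg.2)
  have hfK : ∃ᶠ m in atTop, g m ∈ K := hR.mono fun m hm => ⟨hgdet m, hm⟩
  obtain ⟨g0, hg0K, φ, hφ, hlim⟩ := hKc.tendsto_subseq' hfK
  refine ⟨g0, hg0K.1, fun g' hg' => ?_⟩
  have h1 : Tendsto (fun m => energy br e (g (φ m))) atTop (𝓝 (energy br e g0)) :=
    (continuousAt_energy br e (hunit g0 hg0K.1)).tendsto.comp hlim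
  have h2 : Tendsto (fun m : ℕ => energy br e g' + 1 / (((φ m : ℕ) : ℝ) + 1) * hs e g') atTop
      (𝓝 (energy br e g' + 0 * hs e g')) := by
    refine tendsto_const_nhds.add (Tendsto.mul_const _ ?_)
    exact (tendsto_one_div_add_atTop_nhds_zero_nat (𝕜 := ℝ)).comp hφ.tendsto_atTop
  rw [zero_mul, add_zero] at h2
  refine le_of_tendsto_of_tendsto' h1 h2 fun m => ?_
  have h3 := hgmin (φ m) g' hg'
  have h4 : 0 ≤ 1 / (((φ m : ℕ) : ℝ) + 1) * hs e (g (φ m)) := mul_nonneg (hεpos _).le (hhs0 _)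
  linarith

end Minimal

end TwoExp
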