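import Pool.Agent.TwoExp.Minimal

/-!
# Polar decomposition of automorphisms for a minimal inner product (Kempf–Ness)
-/

namespace TwoExp

open NormedSpace Filter Topology
open scoped RealInnerProductSpace

attribute [local instance] instRatAlg

section Eigen

variable {V : Type*} [NormedAddCommGroup V] [NormedSpace ℝ V] [FiniteDimensional ℝ V]

/-- The exponential of an operator acts on eigenvectors as expected. -/
theorem exp_apply_eigen {T : V →L[ℝ] V} {x : V} {c : ℝ} (h : T x = c • x) :
    exp T x = Real.exp c • x := by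
  set f : ℝ → V := fun t => Real.exp (-(t * c)) • (exp (t • T) x) with hf
  have hd : ∀ t, HasDerivAt f 0 t := by
    intro t
    have h1 : HasDerivAt (fun t : ℝ => exp (t • T) x) (c • exp (t • T) x) t := by
      have h3 := (hasDerivAt_exp_smul_const (𝕂 := ℝ) T t).clm_apply (hasDerivAt_const t x)
      simpa [h] using h3
    have h2 : HasDerivAt (fun t : ℝ => Real.exp (-(t * c))) (Real.exp (-(t * c)) * (-c)) t := by
      have h4 : HasDerivAt (fun t : ℝ => -(t * c)) (-c) t := by
        simpa using ((hasDerivAt_id t).mul_const c).fun_neg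
      exact h4.exp
    have h5 := h2.fun_smul h1
    convert h5 using 1
    rw [smul_smul, ← add_smul]
    have : Real.exp (-(t * c)) * c + Real.exp (-(t * c)) * -c = 0 := by ring
    rw [this, zero_smul]
  have hconst := is_const_of_deriv_eq_zero (fun t => (hd t).differentiableAt)
    (fun t => (hd t).deriv) 1 0
  simp only [hf, one_mul, one_smul, zero_mul, neg_zero, Real.exp_zero, zero_smul, exp_zero,
    one_apply_eq_self] at hconst
  calc exp T x = (Real.exp c * Real.exp (-c)) • exp T x := by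
        rw [← Real.exp_add]; simp
    _ = Real.exp c • (Real.exp (-c) • exp T x) := by rw [smul_smul]
    _ = Real.exp c • x := by rw [hconst]

end Eigen

section Polar

variable {V : Type*} [NormedAddCommGroup V] [InnerProductSpace ℝ V] [FiniteDimensional ℝ V]

theorem exp_diagOp {ι : Type*} [Fintype ι] (b : OrthonormalBasis ι ℝ V) (d : ι → ℝ) :
    exp (diagOp b d) = diagOp b (fun i => Real.exp (d i)) := by
  apply clm_ext_basis b
  intro i
  rw [exp_apply_eigen (diagOp_basis b d i), diagOp_basis]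

omit [FiniteDimensional ℝ V] in
theorem det_diagOp {ι : Type*} [Fintype ι] [DecidableEq ι] (b : OrthonormalBasis ι ℝ V)
    (d : ι → ℝ) : LinearMap.det ((diagOp b d : V →L[ℝ] V) : V →ₗ[ℝ] V) = ∏ i, d i := by
  rw [← LinearMap.det_toMatrix b.toBasis]
  have : LinearMap.toMatrix b.toBasis b.toBasis ((diagOp b d : V →L[ℝ] V) : V →ₗ[ℝ] V) =
      Matrix.diagonal d := by
    ext i j
    rw [LinearMap.toMatrix_apply]
    simp only [OrthonormalBasis.coe_toBasis, ContinuousLinearMap.coe_coe,
      OrthonormalBasis.coe_toBasis_repr_apply]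
    rw [b.repr_apply_apply, diagOp_basis, real_inner_smul_right,
      orthonormal_iff_ite.mp b.orthonormal i j, Matrix.diagonal_apply]
    split_ifs with h
    · rw [h]; simp
    · simp
  rw [this, Matrix.det_diagonal]

theorem adjoint_diagOp {ι : Type*} [Fintype ι] (b : OrthonormalBasis ι ℝ V) (d : ι → ℝ) :
    ContinuousLinearMap.adjoint (diagOp b d) = diagOp b d := by
  symm
  rw [ContinuousLinearMap.eq_adjoint_iff]
  intro x y
  rw [diagOp_apply, diagOp_apply, sum_inner, inner_sum]
  refine Finset.sum_congr rfl fun i _ => ?_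
  rw [real_inner_smul_left, real_inner_smul_right, real_inner_comm x (b i)]
  ring

omit [FiniteDimensional ℝ V] in
theorem ext_inner_basis {ι : Type*} [Fintype ι] (b : OrthonormalBasis ι ℝ V) {x y : V}
    (h : ∀ i, ⟪x, b i⟫ = ⟪y, b i⟫) : x = y := by
  have h1 : ∑ i, ⟪x - y, b i⟫ ^ 2 = ‖x - y‖ ^ 2 := b.sum_sq_inner_left _
  have h2 : ∑ i, ⟪x - y, b i⟫ ^ 2 = 0 := by
    apply Finset.sum_eq_zero
    intro i _
    rw [inner_sub_left, h i]
    simp
  rw [h2] at h1
  have h3 : ‖x - y‖ = 0 := pow_eq_zero_iff two_ne_zero |>.mp h1.symm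
  exact sub_eq_zero.mp (norm_eq_zero.mp h3)

/-- Minimality of the inner product. -/
def IsMin {n : ℕ} (e : OrthonormalBasis (Fin n) ℝ V) (br : V →L[ℝ] V →L[ℝ] V) : Prop :=
  ∀ g' : V →L[ℝ] V, |LinearMap.det (g' : V →ₗ[ℝ] V)| = 1 → energy br e 1 ≤ energy br e g'

theorem energy_one {n : ℕ} (e : OrthonormalBasis (Fin n) ℝ V) (br : V →L[ℝ] V →L[ℝ] V)
    (b : OrthonormalBasis (Fin n) ℝ V) :
    energy br e 1 = ∑ i, ∑ j, ∑ k, (sc br b i j k) ^ 2 := by
  rw [← energy_eq_sc, energy_indep br b e]
  unfold energy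
  simp

/-- Polar decomposition inside the automorphism group. -/
theorem polar {n : ℕ} (hn : Module.finrank ℝ V = n) (e : OrthonormalBasis (Fin n) ℝ V)
    {br : V →L[ℝ] V →L[ℝ] V} (hN : Nondeg br) (hmin : IsMin e br)
    {g g' : V →L[ℝ] V} (hgg' : g * g' = 1) (hg'g : g' * g = 1) (hg : IsHom br g) :
    ∃ k D : V →L[ℝ] V, g = k * exp D ∧ IsDer br D ∧ ContinuousLinearMap.adjoint D = D ∧
      IsHom br k ∧ ContinuousLinearMap.adjoint k * k = 1 := by
  have hdet := absdet_of_isHom hN hgg' hg'g hg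
  obtain ⟨b, u, σ, hσ, hprod, hgb, -⟩ := exists_svd hn g hdet
  have hunit : IsUnit g := ⟨⟨g, g', hgg', hg'g⟩, rfl⟩
  have hinv : Ring.inverse g = g' := by
    have : g = ((⟨g, g', hgg', hg'g⟩ : (V →L[ℝ] V)ˣ) : V →L[ℝ] V) := rfl
    conv_lhs => rw [this]
    rw [Ring.inverse_unit]
    rfl
  set c : Fin n → Fin n → Fin n → ℝ := sc br b with hc
  -- energy of `g`
  have hE1 : energy br e 1 = ∑ i, ∑ j, ∑ k, (c i j k) ^ 2 := energy_one e br b
  have hEg : energy br e g = ∑ i, ∑ j, ∑ k, (σ k / (σ i * σ j)) ^ 2 * (c i j k) ^ 2 := by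
    have := energy_svd br g g' hgg' hg'g b u e σ hσ hgb
    rw [← this]
    unfold energy
    rw [hinv]
  have hEg1 : energy br e g = energy br e 1 := by
    have := energy_mul_hom br e (g := 1) isUnit_one hgg' hg'g hg
    rwa [one_mul] at this
  -- the midpoint
  set τ : Fin n → ℝ := fun i => Real.sqrt (σ i) with hτ
  have hτpos : ∀ i, 0 < τ i := fun i => Real.sqrt_pos.mpr (hσ i)
  have hτsq : ∀ i, τ i ^ 2 = σ i := fun i => Real.sq_sqrt (hσ i).le
  have hτprod : ∏ i, τ i = 1 := by
    have h1 : (∏ i, τ i) ^ 2 = 1 := by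
      rw [← Finset.prod_pow, ← hprod]
      exact Finset.prod_congr rfl fun i _ => hτsq i
    have h2 : 0 < ∏ i, τ i := Finset.prod_pos fun i _ => hτpos i
    nlinarith
  have hmid : diagOp b τ * diagOp b (fun i => (τ i)⁻¹) = 1 := by
    rw [diagOp_mul, ← diagOp_one b]
    congr 1
    funext i
    exact mul_inv_cancel₀ (hτpos i).ne'
  have hmid' : diagOp b (fun i => (τ i)⁻¹) * diagOp b τ = 1 := by
    rw [diagOp_mul, ← diagOp_one b]
    congr 1
    funext i
    exact inv_mul_cancel₀ (hτpos i).ne'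
  have hEm : energy br e (diagOp b τ) = ∑ i, ∑ j, ∑ k, (σ k / (σ i * σ j)) * (c i j k) ^ 2 := by
    have h1 := energy_svd br (diagOp b τ) (diagOp b (fun i => (τ i)⁻¹)) hmid hmid' b b e τ hτpos
      (fun i => diagOp_basis b τ i)
    have hinv2 : Ring.inverse (diagOp b τ) = diagOp b (fun i => (τ i)⁻¹) := by
      have : diagOp b τ = ((⟨diagOp b τ, diagOp b (fun i => (τ i)⁻¹), hmid, hmid'⟩ :
        (V →L[ℝ] V)ˣ) : V →L[ℝ] V) := rfl
      conv_lhs => rw [this]
      rw [Ring.inverse_unit]
      rfl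
    unfold energy
    rw [hinv2, h1]
    refine Finset.sum_congr rfl fun i _ => Finset.sum_congr rfl fun j _ =>
      Finset.sum_congr rfl fun k _ => ?_
    rw [div_pow, mul_pow, hτsq, hτsq, hτsq]
  have hEle : energy br e 1 ≤ energy br e (diagOp b τ) := by
    apply hmin
    rw [det_diagOp, hτprod, abs_one]
  have hsum : ∑ i, ∑ j, ∑ k, (σ k / (σ i * σ j) - 1) ^ 2 * (c i j k) ^ 2 ≤ 0 := by
    have h1 : ∑ i, ∑ j, ∑ k, (σ k / (σ i * σ j) - 1) ^ 2 * (c i j k) ^ 2 =
        (∑ i, ∑ j, ∑ k, (σ k / (σ i * σ j)) ^ 2 * (c i j k) ^ 2) -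
        2 * (∑ i, ∑ j, ∑ k, (σ k / (σ i * σ j)) * (c i j k) ^ 2) +
        ∑ i, ∑ j, ∑ k, (c i j k) ^ 2 := by
      simp only [Finset.mul_sum, ← Finset.sum_sub_distrib, ← Finset.sum_add_distrib]
      refine Finset.sum_congr rfl fun i _ => Finset.sum_congr rfl fun j _ =>
        Finset.sum_congr rfl fun k _ => ?_
      ring
    rw [h1, ← hEg, ← hEm, ← hE1, hEg1]
    linarith
  have hzero : ∀ i j k, (σ k / (σ i * σ j) - 1) ^ 2 * (c i j k) ^ 2 = 0 := by
    intro i j k
    apply le_antisymm _ (by positivity)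
    refine le_trans ?_ hsum
    have s1 := Finset.single_le_sum
      (f := fun k => (σ k / (σ i * σ j) - 1) ^ 2 * (c i j k) ^ 2)
      (fun k _ => by positivity) (Finset.mem_univ k)
    have s2 := Finset.single_le_sum
      (f := fun j => ∑ k, (σ k / (σ i * σ j) - 1) ^ 2 * (c i j k) ^ 2)
      (fun j _ => Finset.sum_nonneg fun k _ => by positivity) (Finset.mem_univ j)
    have s3 := Finset.single_le_sum
      (f := fun i => ∑ j, ∑ k, (σ k / (σ i * σ j) - 1) ^ 2 * (c i j k) ^ 2)
      (fun i _ => Finset.sum_nonneg fun j _ => Finset.sum_nonneg fun k _ => by positivity)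
      (Finset.mem_univ i)
    exact s1.trans (s2.trans s3)
  set d : Fin n → ℝ := fun i => Real.log (σ i) with hd
  have hcd : ∀ i j k, c i j k * d k - d i * c i j k - d j * c i j k = 0 := by
    intro i j k
    by_cases h0 : c i j k = 0
    · rw [h0]; ring
    · have h1 := hzero i j k
      have h2 : (σ k / (σ i * σ j) - 1) ^ 2 = 0 := by
        rcases mul_eq_zero.mp h1 with h | h
        · exact h
        · exact absurd (pow_eq_zero_iff two_ne_zero |>.mp h) h0
      have h3 : σ k / (σ i * σ j) = 1 := by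
        have := pow_eq_zero_iff two_ne_zero |>.mp h2
        linarith
      have h4 : σ k = σ i * σ j := by
        have hne : σ i * σ j ≠ 0 := (mul_pos (hσ i) (hσ j)).ne'
        rwa [div_eq_one_iff_eq hne] at h3
      have h5 : d k = d i + d j := by
        rw [hd]
        simp only
        rw [h4, Real.log_mul (hσ i).ne' (hσ j).ne']
      rw [h5]
      ring
  set D : V →L[ℝ] V := diagOp b d with hD
  have hDder : IsDer br D := by
    apply defect_eq_zero
    apply bilin_ext_basis b
    intro i j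
    rw [defect_apply, hD, diagOp_basis, diagOp_basis]
    simp only [map_smul, smul_apply, zero_apply]
    rw [br_basis]
    simp only [map_sum, map_smul, diagOp_basis, Finset.smul_sum, smul_smul]
    rw [← Finset.sum_sub_distrib, ← Finset.sum_sub_distrib]
    apply Finset.sum_eq_zero
    intro k _
    rw [← sub_smul, ← sub_smul, hcd i j k, zero_smul]
  have hexpb : ∀ i, exp (-D) (b i) = (σ i)⁻¹ • b i := by
    intro i
    have h1 : (-D) (b i) = (-(d i)) • b i := by
      rw [neg_apply, hD, diagOp_basis, neg_smul]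
    rw [exp_apply_eigen h1, Real.exp_neg, hd]
    simp only
    rw [Real.exp_log (hσ i)]
  set k : V →L[ℝ] V := g * exp (-D) with hk
  have hkb : ∀ i, k (b i) = u i := by
    intro i
    rw [hk, mul_apply_eq_comp, hexpb, map_smul, hgb, smul_smul, inv_mul_cancel₀ (hσ i).ne',
      one_smul]
  refine ⟨k, D, ?_, hDder, adjoint_diagOp b d, hg.mul hDder.neg.exp_isHom, ?_⟩
  · rw [hk, mul_assoc, exp_neg_mul_exp, mul_one]
  · apply clm_ext_basis b
    intro i
    refine ext_inner_basis b ?_
    intro j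
    rw [mul_apply_eq_comp, ContinuousLinearMap.adjoint_inner_left]
    simp only [one_apply_eq_self]
    rw [hkb, hkb, orthonormal_iff_ite.mp u.orthonormal, orthonormal_iff_ite.mp b.orthonormal]

end Polar

end TwoExp
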